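import Pool.Agent.Work.MP_6ac3f6_an.Lo.Defs

set_option autoImplicit false

namespace Pool.Agent.Work.MP_6ac3f6_an.Lo

open Metric Filter Topology Set

theorem core_slit {x : ℂ} (h : ‖x‖ < 1) : 1 - x ∈ Complex.slitPlane := by
  have := Complex.mem_slitPlane_of_norm_lt_one (z := -x) (by rwa [norm_neg])
  rwa [← sub_eq_add_neg] at this

theorem core_ne {x : ℂ} (h : ‖x‖ < 1) : 1 - x ≠ 0 := Complex.slitPlane_ne_zero (core_slit h)

theorem core_re (c : ℝ) {w : ℂ} (h : ‖w‖ < 1) :
    (-(c : ℂ) * w / (1 - w)).re = c / 2 * (1 - Po w) := by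
  have h0 : Complex.normSq (1 - w) ≠ 0 := fun e => core_ne h (Complex.normSq_eq_zero.1 e)
  rw [Po, Complex.sq_norm, Complex.sq_norm, Complex.div_re]
  have h1 : Complex.normSq (1 - w) = (1 - w.re) ^ 2 + w.im ^ 2 := by
    rw [Complex.normSq_apply]; simp; ring
  have h2 : Complex.normSq w = w.re ^ 2 + w.im ^ 2 := by rw [Complex.normSq_apply]; ring
  rw [h2]
  simp only [Complex.mul_re, Complex.mul_im, Complex.neg_re, Complex.neg_im, Complex.ofReal_re,
    Complex.ofReal_im, Complex.sub_re, Complex.sub_im, Complex.one_re, Complex.one_im]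
  field_simp
  rw [h1]
  ring

theorem core_log {x : ℂ} (h : ‖x‖ ≤ 1 / 2) : ‖Complex.log (1 - x)‖ ≤ 3 / 2 * ‖x‖ := by
  have := Complex.norm_log_one_add_half_le_self (z := -x) (by rwa [norm_neg])
  rwa [← sub_eq_add_neg, norm_neg] at this

theorem core (hP : StmtPhi) (hU : StmtU) : StmtCore := by
  intro d N a B γ s δ σ φ hB hσ hσ1 hφ hp
  have hB0 : 0 ≤ B := (Finset.sum_nonneg fun _ _ => norm_nonneg _).trans hB
  have hγ := hp.hγ
  have hγ0 : 0 < γ := by linarith
  have hN0 : (0 : ℝ) < N := by exact_mod_cast hp.hN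
  have hNne : N ≠ 0 := by have := hp.hN; omega
  have hS : 0 < Sc N γ := by unfold Sc; positivity
  obtain ⟨hPd, -, -, hPhi⟩ := hP d N a γ B hB hp.hd hp.hN hγ0.le
  have hq : ∀ z : ℂ, ‖z‖ < 1 → ‖z ^ N‖ < 1 := fun z hz => by
    rw [norm_pow]; exact pow_lt_one₀ (norm_nonneg _) hz hNne
  have hf : DifferentiableOn ℂ
      (fun z => Complex.exp (Phi d N a γ z) / (1 - z ^ N) ^ 2) (ball 0 1) :=
    hPd.cexp.div (by fun_prop) fun z hz => pow_ne_zero _ (core_ne (hq z (mem_ball_zero_iff.1 hz)))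
  obtain ⟨g, hg⟩ := hf.isExactOn_ball
  set U : ℂ → ℂ := fun z => g z - g 0 with hUdef
  have hUd : ∀ z ∈ ball (0 : ℂ) 1,
      HasDerivAt U (Complex.exp (Phi d N a γ z) / (1 - z ^ N) ^ 2) z :=
    fun z hz => (hg z hz).sub_const _
  have hU0 : U 0 = 0 := sub_self _
  obtain ⟨hU1, hU2, hU3⟩ := hU d N a B γ s δ σ φ hB hσ hσ1 hφ hp U hUd hU0
  clear_value U
  set S := Sc N γ with hSdef
  set c : ℝ := (1 + σ) * S with hc
  have hc0 : 0 < c := by positivity
  have hcne : (c : ℂ) ≠ 0 := by exact_mod_cast hc0.ne'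
  have hHt : Ht N γ σ = c / 2 := rfl
  have hsN : 0 < s / N := div_pos hp.hs hN0
  have hsub : ∀ z ∈ ball (0 : ℂ) (1 - s / N), ‖z‖ < 1 := fun z hz => by
    have := mem_ball_zero_iff.1 hz; linarith
  set w : ℂ → ℂ := fun z => -U z / c with hw
  have hwn : ∀ z, ‖w z‖ = ‖U z‖ / c := fun z => by
    simp only [hw, norm_div, norm_neg, Complex.norm_real, Real.norm_eq_abs, abs_of_pos hc0]
  have hw1 : ∀ z ∈ ball (0 : ℂ) (1 - s / N), ‖w z‖ < 1 := fun z hz => by
    rw [hwn, div_lt_one hc0]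
    have h1 := hU2 z (mem_ball_zero_iff.1 hz).le
    have h2 := mul_pos hS hσ
    rw [hc]; nlinarith
  have hwd : ∀ z ∈ ball (0 : ℂ) (1 - s / N), HasDerivAt w
      (-(Complex.exp (Phi d N a γ z) / (1 - z ^ N) ^ 2) / c) z :=
    fun z hz => (hUd z (mem_ball_zero_iff.2 (hsub z hz))).neg.div_const _
  have hUw : ∀ z, U z = -(c : ℂ) * w z := fun z => by
    simp only [hw]; field_simp
  have hre : ∀ z ∈ ball (0 : ℂ) (1 - s / N),
      (U z / (1 - w z)).re = Ht N γ σ * (1 - Po (w z)) := fun z hz => by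
    rw [hUw z, core_re c (hw1 z hz), hHt]
  refine ⟨fun z => Phi d N a γ z - 2 * Complex.log (1 - z ^ N) - 2 * Complex.log (1 - w z),
    fun z => U z / (1 - w z), w, fun z hz => ?_, fun z hz => ?_, by simp [hU0],
    fun z hz => (hwd z hz).differentiableAt.differentiableWithinAt, hw1, by simp [hw, hU0],
    fun z hz => ?_, fun z hz => ?_, fun z hz h1 h2 h3 => ?_⟩
  · have h1 : DifferentiableAt ℂ (Phi d N a γ) z :=
      hPd.differentiableAt (isOpen_ball.mem_nhds (mem_ball_zero_iff.2 (hsub z hz)))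
    have h2 : DifferentiableAt ℂ (fun z : ℂ => Complex.log (1 - z ^ N)) z :=
      DifferentiableAt.clog (by fun_prop) (core_slit (hq z (hsub z hz)))
    have h3 : DifferentiableAt ℂ (fun z : ℂ => Complex.log (1 - w z)) z :=
      DifferentiableAt.clog ((hwd z hz).differentiableAt.const_sub 1) (core_slit (hw1 z hz))
    exact ((h1.sub (h2.const_mul 2)).sub (h3.const_mul 2)).differentiableWithinAt
  · have n1 := core_ne (hq z (hsub z hz))
    have n2 := core_ne (hw1 z hz)
    have h1 := (hUd z (mem_ball_zero_iff.2 (hsub z hz))).div ((hwd z hz).const_sub 1) n2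
    have e2 : ∀ x : ℂ, x ≠ 0 → Complex.exp (2 * Complex.log x) = x ^ 2 := fun x hx => by
      rw [two_mul, Complex.exp_add, Complex.exp_log hx, sq]
    refine HasDerivAt.congr_deriv (f := fun z => U z / (1 - w z)) h1 ?_
    show _ = Complex.exp (Phi d N a γ z - 2 * Complex.log (1 - z ^ N) - 2 * Complex.log (1 - w z))
    rw [Complex.exp_sub, Complex.exp_sub, e2 _ n1, e2 _ n2, hUw z]
    generalize w z = x at n2 ⊢
    generalize 1 - z ^ N = y at n1 ⊢
    field_simp
    ring
  · show (U z / (1 - w z)).re ≤ _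
    rw [hre z hz, hHt]
    have h1 : 0 ≤ Po (w z) := by
      have := hw1 z hz
      have h0 := norm_nonneg (w z)
      exact div_nonneg (by nlinarith) (by positivity)
    nlinarith
  · have hδ0 : 0 < δ := lt_of_lt_of_le (by positivity) hp.hδ
    have hz1 : ‖z‖ < 1 := by linarith
    set β := Real.exp (-(δ * N / 2)) with hβdef
    have hβ0 : 0 < β := Real.exp_pos _
    have hβ := hp.hβ
    rw [← hβdef] at hβ
    have hβ1 : β ≤ σ / 40 := by nlinarith
    have hzβ : ‖z‖ ^ (N - d) ≤ β := by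
      have h1 : ‖z‖ ≤ Real.exp (-δ) := by
        have := Real.add_one_le_exp (-δ); linarith
      have h2 : (N : ℝ) / 2 ≤ ((N - d : ℕ) : ℝ) := by
        have h3 : N ≤ 2 * (N - d) := by have := hp.hd; omega
        have h4 : (N : ℝ) ≤ 2 * ((N - d : ℕ) : ℝ) := by exact_mod_cast h3
        linarith
      calc ‖z‖ ^ (N - d) ≤ Real.exp (-δ) ^ (N - d) := pow_le_pow_left₀ (norm_nonneg _) h1 _
        _ = Real.exp (((N - d : ℕ) : ℝ) * -δ) := (Real.exp_nat_mul _ _).symm
        _ ≤ β := Real.exp_le_exp.2 (by nlinarith)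
    have h1 := hPhi z β hz1 hzβ (by linarith)
    have h2 : ‖z ^ N‖ ≤ β := by
      rw [norm_pow]
      exact (pow_le_pow_of_le_one (norm_nonneg _) hz1.le (Nat.sub_le _ _)).trans hzβ
    have h3 : ‖w z‖ ≤ σ / 8 := by
      rw [hwn, div_le_iff₀ hc0]
      have h4 := hU1 z hz
      have h5 := mul_pos (mul_pos hS hσ) hσ
      rw [hc]; nlinarith
    have h4 := core_log (x := z ^ N) (by linarith)
    have h5 := core_log (x := w z) (by linarith)
    have e : Phi d N a γ z - 2 * Complex.log (1 - z ^ N) - 2 * Complex.log (1 - w z) - pol d a z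
        = (Phi d N a γ z - pol d a z) - 2 * Complex.log (1 - z ^ N)
          - 2 * Complex.log (1 - w z) := by ring
    show ‖Phi d N a γ z - 2 * Complex.log (1 - z ^ N) - 2 * Complex.log (1 - w z) - pol d a z‖ ≤ σ
    rw [e]
    have h6 := norm_sub_le (Phi d N a γ z - pol d a z - 2 * Complex.log (1 - z ^ N))
      (2 * Complex.log (1 - w z))
    have h7 := norm_sub_le (Phi d N a γ z - pol d a z) (2 * Complex.log (1 - z ^ N))
    rw [norm_mul, Complex.norm_ofNat] at h6 h7
    linarith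
  · show _ ≤ (U z / (1 - w z)).re
    rw [hre z hz, hHt]
    have h4 := hU3 z h1 (mem_ball_zero_iff.1 hz).le h2
    have h5 : 1 - 3 * σ / 2 ≤ ‖w z‖ := by
      rw [hwn, le_div_iff₀ hc0]
      have h5 := mul_pos (mul_pos hS hσ) hσ
      rw [hc]; nlinarith
    have h6 := hw1 z hz
    have h0 := norm_nonneg (w z)
    have h7 : Po (w z) ≤ 3 * σ / φ ^ 2 :=
      div_le_div₀ (by positivity) (by nlinarith) (by positivity) (pow_le_pow_left₀ hφ.le h3 2)
    exact mul_le_mul_of_nonneg_left (by linarith) (by positivity)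

end Pool.Agent.Work.MP_6ac3f6_an.Lo
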