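import Pool.Agent.Work.MP_6ac3f6_an.Defs

/-!
Definitions and statements for a pole-free function of growth index at least one
(paper: team store `h78_6ac3f6_lo.md`).
-/

set_option autoImplicit false

namespace Pool.Agent.Work.MP_6ac3f6_an.Lo

open Metric Filter Topology Set

/-- A polynomial given by its coefficients. -/
noncomputable def pol (d : ℕ) (a : ℕ → ℂ) (z : ℂ) : ℂ := ∑ j ∈ Finset.range d, a j * z ^ j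

/-- The reversed conjugate polynomial. -/
noncomputable def rev (d N : ℕ) (a : ℕ → ℂ) (z : ℂ) : ℂ :=
  ∑ j ∈ Finset.range d, (starRingEnd ℂ) (a j) * z ^ (N - j)

/-- The new exponent: its real part is `γ` on the unit circle. -/
noncomputable def Phi (d N : ℕ) (a : ℕ → ℂ) (γ : ℝ) (z : ℂ) : ℂ :=
  (pol d a z + rev d N a z - 2 * γ * z ^ N) / (1 - z ^ N)

/-- The Poisson kernel. -/
noncomputable def Po (w : ℂ) : ℝ := (1 - ‖w‖ ^ 2) / ‖1 - w‖ ^ 2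

/-- The explicit approximate primitive. -/
noncomputable def Wf (d N : ℕ) (a : ℕ → ℂ) (γ : ℝ) (z : ℂ) : ℂ :=
  -z * Complex.exp (Phi d N a γ z) / (2 * γ * N * z ^ N)

/-- The scale of the primitive. -/
noncomputable def Sc (N : ℕ) (γ : ℝ) : ℝ := Real.exp γ / (2 * γ * N)

/-- The height of the half-plane. -/
noncomputable def Ht (N : ℕ) (γ σ : ℝ) : ℝ := (1 + σ) * Sc N γ / 2

/-- Growth along a radius, constant bound. -/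
def StmtRad0 : Prop :=
  ∀ (F F' : ℂ → ℂ) (ζ : ℂ) (t₁ t₂ C : ℝ), ‖ζ‖ = 1 → t₁ ≤ t₂ →
    (∀ t ∈ Icc t₁ t₂, HasDerivAt F (F' (t * ζ)) (t * ζ)) →
    (∀ t ∈ Icc t₁ t₂, ‖F' (t * ζ)‖ ≤ C) → ‖F (t₂ * ζ) - F (t₁ * ζ)‖ ≤ C * (t₂ - t₁)

/-- Growth along a radius, logarithmic bound. -/
def StmtRad : Prop :=
  ∀ (F F' : ℂ → ℂ) (ζ : ℂ) (t₁ t₂ K : ℝ), ‖ζ‖ = 1 → t₁ ≤ t₂ → t₂ < 1 →
    (∀ t ∈ Icc t₁ t₂, HasDerivAt F (F' (t * ζ)) (t * ζ)) →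
    (∀ t ∈ Icc t₁ t₂, ‖F' (t * ζ)‖ ≤ K / (1 - t)) →
    ‖F (t₂ * ζ) - F (t₁ * ζ)‖ ≤ K * Real.log ((1 - t₁) / (1 - t₂))

/-- Approximation by polynomials on the closed unit disc. -/
def StmtPA : Prop :=
  ∀ (g : ℂ → ℂ) (R η : ℝ), 1 < R → 0 < η → DifferentiableOn ℂ g (ball 0 R) →
    ∃ (d : ℕ) (a : ℕ → ℂ), ∀ z : ℂ, ‖z‖ ≤ 1 → ‖g z - pol d a z‖ ≤ η

/-- A lower bound for a mean: self-maps of the disc fixing zero are rarely close to one. -/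
def StmtMean : Prop :=
  ∀ (w q : ℂ → ℂ) (g : ℂ → ℝ) (R r A τ φ : ℝ), 0 < r → r < R → 0 < φ → φ < 1 → 0 ≤ A → 0 ≤ τ →
    DifferentiableOn ℂ w (ball 0 R) → DifferentiableOn ℂ q (ball 0 R) →
    (∀ z ∈ ball (0 : ℂ) R, ‖w z‖ < 1) → (∀ z ∈ ball (0 : ℂ) R, ‖q z‖ < 1) → w 0 = 0 → q 0 = 0 →
    ContinuousOn g (sphere 0 r) → (∀ z : ℂ, ‖z‖ = r → 0 ≤ g z) →
    (∀ z : ℂ, ‖z‖ = r → φ ≤ ‖1 - q z‖ → φ ≤ ‖1 - w z‖ → A * (1 - τ) ≤ g z) →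
    A * (1 - τ - 2 * Real.log 2 / Real.log (2 / φ)) ≤ Real.circleAverage g 0 r

/-- Size and real part of the exponent. -/
def StmtPhi : Prop :=
  ∀ (d N : ℕ) (a : ℕ → ℂ) (γ B : ℝ), ∑ j ∈ Finset.range d, ‖a j‖ ≤ B → 2 * d ≤ N → 1 ≤ N →
    0 ≤ γ → DifferentiableOn ℂ (Phi d N a γ) (ball 0 1) ∧
    (∀ z : ℂ, ‖z‖ ≤ 1 → ‖pol d a z‖ ≤ B) ∧
    (∀ z : ℂ, ‖z‖ < 1 →
      |(Phi d N a γ z).re - (γ - (γ - (pol d a z).re) * Po (z ^ N))| ≤ 4 * d * B / N) ∧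
    ∀ (z : ℂ) (β : ℝ), ‖z‖ < 1 → ‖z‖ ^ (N - d) ≤ β → β ≤ 1 / 2 →
      ‖Phi d N a γ z - pol d a z‖ ≤ 4 * (B + γ) * β

/-- The derivative of the approximate primitive. -/
def StmtW : Prop :=
  ∀ (d N : ℕ) (a : ℕ → ℂ) (γ B : ℝ), ∑ j ∈ Finset.range d, ‖a j‖ ≤ B → 2 * d ≤ N → 1 ≤ N →
    0 < γ → ∀ z : ℂ, ‖z‖ < 1 → 1 / 2 ≤ ‖z‖ ^ N →
      DifferentiableAt ℂ (Wf d N a γ) z ∧
      ‖Complex.exp (Phi d N a γ z) / (1 - z ^ N) ^ 2 - deriv (Wf d N a γ) z‖ ≤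
        Real.exp (Phi d N a γ z).re / ‖1 - z ^ N‖ ^ 2 * ((5 * B + 4) / γ)

/-- The numerical conditions on the parameters of one stage. -/
structure Par (B : ℝ) (d N : ℕ) (γ s δ σ φ : ℝ) : Prop where
  hd : 2 * d ≤ N
  hN : 1 ≤ N
  hγ : B + 4 ≤ γ
  he : 4 * d * B / N ≤ σ / 8
  hs : 0 < s
  hs' : s ≤ 1 / 8
  hδ : 1 / (2 * (N : ℝ)) ≤ δ
  hδ' : δ ≤ 1 / 2
  hβ : 10 * (B + γ) * Real.exp (-(δ * N / 2)) ≤ σ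
  hin : 9 * Real.exp (4 * γ / 5 + B + 1) * δ ≤ 1
  hout : 12 * (5 * B + 4) / (γ - B) * Real.log (1 / (2 * s)) ≤ σ / 8
  hS : 4 * Real.exp (B + 1) + 2 ≤ Sc N γ * σ / 8
  htest : 12 * γ * s / φ ^ 2 ≤ σ / 8

/-- The parameters exist. -/
def StmtNum : Prop :=
  ∀ (B : ℝ) (d : ℕ) (σ φ θ : ℝ), 0 ≤ B → 0 < σ → σ ≤ 1 → 0 < φ → φ < 1 → 0 < θ → θ < 1 →
    ∃ (N : ℕ) (γ s δ : ℝ), Par B d N γ s δ σ φ ∧ δ ≤ θ ∧ 1 ≤ θ * Ht N γ σ ∧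
      Real.exp (Ht N γ σ + 1) * δ ≤ θ ∧ (1 - θ) * Real.log (N / s) ≤ Ht N γ σ

/-- The primitive of the new integrand: upper bounds, and size near the boundary. -/
def StmtU : Prop :=
  ∀ (d N : ℕ) (a : ℕ → ℂ) (B γ s δ σ φ : ℝ), ∑ j ∈ Finset.range d, ‖a j‖ ≤ B → 0 < σ → σ ≤ 1 →
    0 < φ → Par B d N γ s δ σ φ → ∀ U : ℂ → ℂ,
    (∀ z ∈ ball (0 : ℂ) 1, HasDerivAt U (Complex.exp (Phi d N a γ z) / (1 - z ^ N) ^ 2) z) →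
    U 0 = 0 →
    (∀ z : ℂ, ‖z‖ ≤ 1 - δ → ‖U z‖ ≤ Sc N γ * σ / 8) ∧
    (∀ z : ℂ, ‖z‖ ≤ 1 - s / N → ‖U z‖ ≤ Sc N γ * (1 + σ / 2)) ∧
    ∀ z : ℂ, 1 - 3 * s / N ≤ ‖z‖ → ‖z‖ ≤ 1 - s / N → φ ≤ ‖1 - z ^ N‖ →
      Sc N γ * (1 - σ / 2) ≤ ‖U z‖

/-- The analytic core of one stage. -/
def StmtCore : Prop :=
  ∀ (d N : ℕ) (a : ℕ → ℂ) (B γ s δ σ φ : ℝ), ∑ j ∈ Finset.range d, ‖a j‖ ≤ B → 0 < σ → σ ≤ 1 →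
    0 < φ → Par B d N γ s δ σ φ →
    ∃ K H w : ℂ → ℂ, DifferentiableOn ℂ K (ball 0 (1 - s / N)) ∧
      (∀ z ∈ ball (0 : ℂ) (1 - s / N), HasDerivAt H (Complex.exp (K z)) z) ∧ H 0 = 0 ∧
      DifferentiableOn ℂ w (ball 0 (1 - s / N)) ∧ (∀ z ∈ ball (0 : ℂ) (1 - s / N), ‖w z‖ < 1) ∧
      w 0 = 0 ∧ (∀ z ∈ ball (0 : ℂ) (1 - s / N), (H z).re ≤ Ht N γ σ) ∧
      (∀ z : ℂ, ‖z‖ ≤ 1 - δ → ‖K z - pol d a z‖ ≤ σ) ∧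
      ∀ z ∈ ball (0 : ℂ) (1 - s / N), 1 - 3 * s / N ≤ ‖z‖ → φ ≤ ‖1 - z ^ N‖ → φ ≤ ‖1 - w z‖ →
        Ht N γ σ * (1 - 3 * σ / φ ^ 2) ≤ (H z).re

/-- One stage. -/
def StmtStage : Prop :=
  ∀ (d : ℕ) (a : ℕ → ℂ) (ε : ℝ), 0 < ε → ε ≤ 1 →
    ∃ (d' : ℕ) (a' : ℕ → ℂ) (h' : ℂ → ℂ) (δ r : ℝ),
      (∀ z ∈ ball (0 : ℂ) 2, HasDerivAt h' (Complex.exp (pol d' a' z)) z) ∧ h' 0 = 0 ∧
      0 < δ ∧ δ ≤ ε ∧ 0 < r ∧ r < 1 ∧ 1 - r ≤ δ ∧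
      (∀ z : ℂ, ‖z‖ ≤ 1 - δ → ‖pol d' a' z - pol d a z‖ ≤ ε) ∧
      (∀ z : ℂ, ‖z‖ ≤ 1 → Real.exp (h' z).re * δ ≤ ε) ∧
      (1 - ε) * (-Real.log (1 - r)) ≤ Real.circleAverage (fun z => max (h' z).re 0) 0 r

/-- The state of the recursion: `h' = exp P`, `y' = exp h`, with `P` a polynomial. -/
structure St where
  P : ℂ → ℂ
  h : ℂ → ℂ
  y : ℂ → ℂ
  isPol : ∃ d a, P = pol d a
  hh : ∀ z ∈ ball (0 : ℂ) 2, HasDerivAt h (Complex.exp (P z)) z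
  h0 : h 0 = 0
  hy : ∀ z ∈ ball (0 : ℂ) 2, HasDerivAt y (Complex.exp (h z)) z
  y0 : y 0 = 0

/-- One stage for the whole state. -/
def StmtStage2 : Prop :=
  Nonempty St ∧ ∀ (u : St) (ε : ℝ), 0 < ε → ε ≤ 1 → ∃ (v : St) (δ r : ℝ),
    0 < δ ∧ δ ≤ ε ∧ 0 < r ∧ r < 1 ∧ 1 - r ≤ δ ∧
    (∀ z : ℂ, ‖z‖ ≤ 1 - δ → ‖v.P z - u.P z‖ ≤ ε ∧ ‖v.h z - u.h z‖ ≤ ε) ∧
    (∀ z : ℂ, ‖z‖ ≤ 1 → ‖v.y z - u.y z‖ ≤ ε) ∧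
    (1 - ε) * (-Real.log (1 - r)) ≤ Real.circleAverage (fun z => max (v.h z).re 0) 0 r

/-- The limit functions. -/
def StmtGood : Prop :=
  ∃ (h y : ℂ → ℂ) (M : ℝ), DifferentiableOn ℂ h (ball 0 1) ∧
    (∀ z ∈ ball (0 : ℂ) 1, deriv h z ≠ 0) ∧ h 0 = 0 ∧
    (∀ z ∈ ball (0 : ℂ) 1, HasDerivAt y (Complex.exp (h z)) z) ∧
    (∀ z ∈ ball (0 : ℂ) 1, ‖y z‖ ≤ M) ∧
    ∀ ε : ℝ, 0 < ε → ∃ r : ℝ, 0 < r ∧ 1 - ε ≤ r ∧ r < 1 ∧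
      (1 - ε) * (-Real.log (1 - r)) - 2 ≤ Real.circleAverage (fun z => max (h z).re 0) 0 r

/-- The theorem. -/
def StmtMain : Prop :=
  ∃ f : ℂ → ℂ, DifferentiableOn ℂ f (ball 0 1) ∧ (∀ z ∈ ball (0 : ℂ) 1, f z ≠ 0) ∧
    (∀ z ∈ ball (0 : ℂ) 1, deriv f z ≠ 1) ∧ (1 : EReal) ≤ alpha f

end Pool.Agent.Work.MP_6ac3f6_an.Lo
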