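import Pool.Agent.Work.MP_6ac3f6_an.Lo.Defs

/-!
The end of the construction: the function `(y + c) exp (-h)` has no zeros, its derivative omits
the value one, and its growth index is at least one.
-/

set_option autoImplicit false

namespace Pool.Agent.Work.MP_6ac3f6_an.Lo

open Metric Filter Topology Set

lemma fin_nPoles {f : ℂ → ℂ} (hf : DifferentiableOn ℂ f (ball 0 1)) {t : ℝ} (ht : t < 1) :
    nPoles f t = 0 := by
  unfold nPoles
  refine finsum_mem_of_eqOn_zero (fun u hu => ?_)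
  have ha : AnalyticAt ℂ f u := hf.analyticOnNhd isOpen_ball u (closedBall_subset_ball ht hu)
  have h0 : 0 ≤ (meromorphicOrderAt f u).untop₀ :=
    WithTop.untop₀_nonneg.2 ha.meromorphicOrderAt_nonneg
  have h1 : poleMult f u = 0 := by
    unfold poleMult
    omega
  simp [h1]

lemma fin_counting {f : ℂ → ℂ} (hf : DifferentiableOn ℂ f (ball 0 1)) {r : ℝ} (hr0 : 0 < r)
    (hr : r < 1) : counting f r = 0 := by
  unfold counting
  rw [fin_nPoles hf one_pos, zero_mul, add_zero]
  have : ∫ t in (0 : ℝ)..r, (nPoles f t - 0) / t = ∫ _ in (0 : ℝ)..r, (0 : ℝ) := by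
    refine intervalIntegral.integral_congr (fun t ht => ?_)
    rw [uIcc_of_le hr0.le] at ht
    simp [fin_nPoles hf (ht.2.trans_lt hr)]
  rw [this, intervalIntegral.integral_zero]

lemma fin_prox (f : ℂ → ℂ) (r : ℝ) :
    prox f r = Real.circleAverage (fun z => max 0 (Real.log ‖f z‖)) 0 r := by
  simp [prox, Real.circleAverage_def, circleMap]

lemma fin_mean {h : ℂ → ℂ} (hh : DifferentiableOn ℂ h (ball 0 1)) (h0 : h 0 = 0) {r : ℝ}
    (hr0 : 0 < r) (hr : r < 1) : Real.circleAverage (fun z => (h z).re) 0 r = 0 := by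
  have hs : sphere (0 : ℂ) |r| ⊆ ball 0 1 := by
    rw [abs_of_pos hr0]; exact sphere_subset_ball hr
  have hc : closure (ball (0 : ℂ) |r|) ⊆ ball 0 1 := by
    rw [abs_of_pos hr0]; exact closure_ball_subset_closedBall.trans (closedBall_subset_ball hr)
  have h1 := Complex.reCLM.circleAverage_comp_comm
    ((hh.continuousOn.mono hs).circleIntegrable')
  rw [(hh.mono hc).diffContOnCl.circleAverage, h0] at h1
  simpa [Function.comp_def] using h1

lemma fin_lower {f h : ℂ → ℂ} (hf : DifferentiableOn ℂ f (ball 0 1))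
    (hf0 : ∀ z ∈ ball (0 : ℂ) 1, f z ≠ 0) (hh : DifferentiableOn ℂ h (ball 0 1)) (h0 : h 0 = 0)
    (hl : ∀ z ∈ ball (0 : ℂ) 1, -(h z).re ≤ Real.log ‖f z‖) {r : ℝ} (hr0 : 0 < r) (hr : r < 1) :
    Real.circleAverage (fun z => max (h z).re 0) 0 r ≤ prox f r + counting f r := by
  have hs : sphere (0 : ℂ) |r| ⊆ ball 0 1 := by
    rw [abs_of_pos hr0]; exact sphere_subset_ball hr
  have c1 : ContinuousOn (fun z => (h z).re) (sphere (0 : ℂ) |r|) :=
    Complex.continuous_re.comp_continuousOn (hh.continuousOn.mono hs)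
  have c2 : ContinuousOn (fun z => max (h z).re 0) (sphere (0 : ℂ) |r|) :=
    c1.sup continuousOn_const
  have c3 : ContinuousOn (fun z => max 0 (Real.log ‖f z‖)) (sphere (0 : ℂ) |r|) :=
    continuousOn_const.sup ((hf.continuousOn.mono hs).norm.log
      (fun z hz => norm_ne_zero_iff.2 (hf0 z (hs hz))))
  have h1 : Real.circleAverage (fun z => max (h z).re 0) 0 r ≤
      Real.circleAverage (fun z => max 0 (Real.log ‖f z‖) + (h z).re) 0 r := by
    refine Real.circleAverage_mono c2.circleIntegrable' (c3.add c1).circleIntegrable'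
      (fun z hz => ?_)
    have a1 := hl z (hs hz)
    have a2 := le_max_left 0 (Real.log ‖f z‖)
    have a3 := le_max_right 0 (Real.log ‖f z‖)
    exact max_le (by linarith) (by linarith)
  rw [Real.circleAverage_fun_add c3.circleIntegrable' c1.circleIntegrable',
    fin_mean hh h0 hr0 hr] at h1
  rw [fin_counting hf hr0 hr, fin_prox]
  exact h1

theorem finl (h : StmtGood) : StmtMain := by
  obtain ⟨h, y, M, hh, hd, h0, hy, hM, hg⟩ := h
  have hn : ∀ z ∈ ball (0 : ℂ) 1, 1 ≤ ‖y z + ((M + 1 : ℝ) : ℂ)‖ := fun z hz => by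
    have a1 := hM z hz
    have a2 : ‖((M + 1 : ℝ) : ℂ)‖ ≤ ‖y z + ((M + 1 : ℝ) : ℂ)‖ + ‖y z‖ := by
      simpa using norm_sub_le (y z + ((M + 1 : ℝ) : ℂ)) (y z)
    have a3 : M + 1 ≤ ‖((M + 1 : ℝ) : ℂ)‖ := by
      rw [Complex.norm_real]; exact le_abs_self _
    linarith
  have hne : ∀ z ∈ ball (0 : ℂ) 1, y z + ((M + 1 : ℝ) : ℂ) ≠ 0 := fun z hz h' => by
    have := hn z hz
    rw [h', norm_zero] at this
    linarith
  have hD : ∀ z ∈ ball (0 : ℂ) 1, HasDerivAt
      (fun w => (y w + ((M + 1 : ℝ) : ℂ)) * Complex.exp (-h w))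
      (Complex.exp (h z) * Complex.exp (-h z) +
        (y z + ((M + 1 : ℝ) : ℂ)) * (Complex.exp (-h z) * -deriv h z)) z := fun z hz =>
    ((hy z hz).add_const _).mul
      ((hh.differentiableAt (isOpen_ball.mem_nhds hz)).hasDerivAt.neg.cexp)
  have hf : DifferentiableOn ℂ (fun w => (y w + ((M + 1 : ℝ) : ℂ)) * Complex.exp (-h w))
      (ball 0 1) := fun z hz => (hD z hz).differentiableAt.differentiableWithinAt
  have hf0 : ∀ z ∈ ball (0 : ℂ) 1, (y z + ((M + 1 : ℝ) : ℂ)) * Complex.exp (-h z) ≠ 0 :=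
    fun z hz => mul_ne_zero (hne z hz) (Complex.exp_ne_zero _)
  refine ⟨_, hf, hf0, fun z hz => ?_, ?_⟩
  · rw [(hD z hz).deriv, ← Complex.exp_add, add_neg_cancel, Complex.exp_zero, Ne, add_eq_left]
    exact mul_ne_zero (hne z hz) (mul_ne_zero (Complex.exp_ne_zero _) (neg_ne_zero.2 (hd z hz)))
  · have hl : ∀ z ∈ ball (0 : ℂ) 1, -(h z).re ≤
        Real.log ‖(y z + ((M + 1 : ℝ) : ℂ)) * Complex.exp (-h z)‖ := fun z hz => by
      rw [norm_mul, Real.log_mul (norm_ne_zero_iff.2 (hne z hz))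
        (norm_ne_zero_iff.2 (Complex.exp_ne_zero _)), Complex.norm_exp, Real.log_exp,
        Complex.neg_re]
      linarith [Real.log_nonneg (hn z hz)]
    refine le_of_forall_lt (fun c hc => ?_)
    obtain ⟨x, h1, h2⟩ := EReal.lt_iff_exists_real_btwn.1 hc
    have h3 : x < 1 := by exact_mod_cast h2
    refine h1.trans_le (le_limsup_of_frequently_le ?_)
    rw [Filter.frequently_iff]
    intro U hU
    obtain ⟨l, hl1, hlU⟩ := (mem_nhdsLT_iff_exists_Ioo_subset).1 hU
    have hl2 : l < 1 := hl1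
    set η : ℝ := (1 - x) / 2 with hη
    have hη0 : 0 < η := by rw [hη]; linarith
    obtain ⟨r, hr0, hr1, hr2, hr3⟩ := hg (min (min ((1 - l) / 2) η) (Real.exp (-(2 / η))))
      (lt_min (lt_min (by linarith) hη0) (Real.exp_pos _))
    have e1 := (min_le_left _ (Real.exp (-(2 / η)))).trans (min_le_left ((1 - l) / 2) η)
    have e2 := (min_le_left _ (Real.exp (-(2 / η)))).trans (min_le_right ((1 - l) / 2) η)
    have e3 := min_le_right (min ((1 - l) / 2) η) (Real.exp (-(2 / η)))
    generalize min (min ((1 - l) / 2) η) (Real.exp (-(2 / η))) = ε at hr1 hr3 e1 e2 e3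
    refine ⟨r, hlU ⟨by linarith, hr2⟩, ?_⟩
    have b1 : Real.log (1 - r) ≤ -(2 / η) := by
      rw [← Real.log_exp (-(2 / η))]
      exact Real.log_le_log (by linarith) (by linarith)
    have b0 : 0 < 2 / η := by positivity
    have b2 : 0 < -Real.log (1 - r) := by linarith
    have b3 : 2 ≤ η * -Real.log (1 - r) := by
      have : 2 / η ≤ -Real.log (1 - r) := by linarith
      rw [div_le_iff₀ hη0] at this
      linarith
    have b4 := fin_lower hf hf0 hh h0 hl hr0 hr2
    have b5 := mul_le_mul_of_nonneg_right e2 b2.le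
    rw [EReal.coe_le_coe_iff, le_div_iff₀ b2]
    have b6 : x = 1 - 2 * η := by rw [hη]; ring
    rw [b6]
    linarith

end Pool.Agent.Work.MP_6ac3f6_an.Lo
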