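import Pool.Agent.Work.MP_6ac3f6_an.Lo.Defs

/-! The limit functions of the recursion. -/

set_option autoImplicit false

namespace Pool.Agent.Work.MP_6ac3f6_an.Lo

open Metric Filter Topology Set

theorem good_anti {e : ℕ → ℝ} (h0 : ∀ n, 0 < e n) (hh : ∀ n, e (n + 1) ≤ e n / 2) (n : ℕ) :
    e (n + 1) ≤ e n := by linarith [h0 n, hh n]

theorem good_zero {e : ℕ → ℝ} (h0 : ∀ n, 0 < e n) (hh : ∀ n, e (n + 1) ≤ e n / 2) :
    Tendsto e atTop (𝓝 0) := by
  have hb : ∀ n, e n ≤ e 0 * (1 / 2) ^ n := fun n => by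
    induction n with
    | zero => simp
    | succ n ih => rw [pow_succ]; linarith [hh n]
  have ht : Tendsto (fun n : ℕ => e 0 * (1 / 2 : ℝ) ^ n) atTop (𝓝 (e 0 * 0)) :=
    (tendsto_pow_atTop_nhds_zero_of_lt_one (by norm_num) (by norm_num)).const_mul _
  rw [mul_zero] at ht
  exact squeeze_zero (fun n => (h0 n).le) hb ht

theorem good_lim {e : ℕ → ℝ} (h0 : ∀ n, 0 < e n) (hh : ∀ n, e (n + 1) ≤ e n / 2)
    (F : ℕ → ℂ → ℂ) (D : ℕ → ℂ → Prop) (hD : ∀ n z, D n z → D (n + 1) z)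
    (hF : ∀ n z, D n z → ‖F (n + 1) z - F n z‖ ≤ e n) :
    ∃ G : ℂ → ℂ, ∀ n z, D n z → ‖G z - F n z‖ ≤ 2 * e n := by
  have hD' : ∀ n z, D n z → ∀ m, n ≤ m → D m z := fun n z h m hm => by
    induction m, hm using Nat.le_induction with
    | base => exact h
    | succ m _ ih => exact hD m z ih
  have key : ∀ n z, D n z → ∀ m, n ≤ m → ‖F m z - F n z‖ ≤ 2 * e n - 2 * e m := by
    intro n z h m hm
    induction m, hm using Nat.le_induction with
    | base => simp
    | succ m hm ih =>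
      have h1 := hF m z (hD' n z h m hm)
      have h2 : ‖F (m + 1) z - F n z‖ ≤ ‖F (m + 1) z - F m z‖ + ‖F m z - F n z‖ :=
        norm_sub_le_norm_sub_add_norm_sub _ _ _
      linarith [hh m]
  refine ⟨fun z => limUnder atTop fun n => F n z, fun n z h => ?_⟩
  have hc : CauchySeq fun m => F m z := by
    refine Metric.cauchySeq_iff'.2 fun η hη => ?_
    obtain ⟨N, hN⟩ := (((good_zero h0 hh).eventually (gt_mem_nhds (half_pos hη))).and
      (eventually_ge_atTop n)).exists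
    refine ⟨N, fun m hm => ?_⟩
    rw [dist_eq_norm]
    linarith [key N z (hD' n z h N hN.2) m hm, h0 m, hN.1]
  have ht := hc.tendsto_limUnder
  refine le_of_tendsto ((ht.sub_const (F n z)).norm) ?_
  filter_upwards [eventually_ge_atTop n] with m hm
  linarith [key n z h m hm, h0 m]

theorem good_loc {e : ℕ → ℝ} (h0 : ∀ n, 0 < e n) (hh : ∀ n, e (n + 1) ≤ e n / 2)
    {F : ℕ → ℂ → ℂ} {G : ℂ → ℂ} (h : ∀ n z, ‖z‖ ≤ 1 - e n → ‖G z - F n z‖ ≤ 2 * e n) :
    TendstoLocallyUniformlyOn F G atTop (ball 0 1) := by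
  refine Metric.tendstoLocallyUniformlyOn_iff.2 fun η hη x hx => ?_
  have hx1 : ‖x‖ < 1 := by simpa using hx
  refine ⟨ball 0 ((1 + ‖x‖) / 2), mem_nhdsWithin_of_mem_nhds (isOpen_ball.mem_nhds ?_), ?_⟩
  · rw [mem_ball_zero_iff]; linarith
  · filter_upwards [(good_zero h0 hh).eventually (gt_mem_nhds (half_pos hη)),
      (good_zero h0 hh).eventually (gt_mem_nhds (show (0 : ℝ) < (1 - ‖x‖) / 2 by linarith))]
      with n h1 h2 y hy
    rw [mem_ball_zero_iff] at hy
    rw [dist_eq_norm]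
    linarith [h n y (by linarith)]

theorem good_der {F F' : ℕ → ℂ → ℂ} {G G' : ℂ → ℂ}
    (hF : TendstoLocallyUniformlyOn F G atTop (ball 0 1))
    (hF' : TendstoLocallyUniformlyOn F' G' atTop (ball 0 1))
    (hd : ∀ n, ∀ z ∈ ball (0 : ℂ) 2, HasDerivAt (F n) (Complex.exp (F' n z)) z) :
    ∀ z ∈ ball (0 : ℂ) 1, HasDerivAt G (Complex.exp (G' z)) z := by
  have hsub : ball (0 : ℂ) 1 ⊆ ball 0 2 := ball_subset_ball (by norm_num)
  have hdiff : ∀ᶠ n in atTop, DifferentiableOn ℂ (F n) (ball 0 1) :=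
    Eventually.of_forall fun n z hz => (hd n z (hsub hz)).differentiableAt.differentiableWithinAt
  intro z hz
  have h1 := (hF.differentiableOn hdiff isOpen_ball z hz).differentiableAt
    (isOpen_ball.mem_nhds hz)
  have h2 := (hF.deriv hdiff isOpen_ball).tendsto_at hz
  have h3 : Tendsto (fun n => Complex.exp (F' n z)) atTop (𝓝 (Complex.exp (G' z))) :=
    (Complex.continuous_exp.tendsto _).comp (hF'.tendsto_at hz)
  have h4 : (fun n => (deriv ∘ F) n z) = fun n => Complex.exp (F' n z) :=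
    funext fun n => (hd n z (hsub hz)).deriv
  rw [h4] at h2
  rw [← tendsto_nhds_unique h2 h3]
  exact h1.hasDerivAt

theorem good_seq (h : StmtStage2) :
    ∃ (u : ℕ → St) (e r : ℕ → ℝ), (∀ n, 0 < e n) ∧ (∀ n, e n ≤ 1) ∧
      (∀ n, e (n + 1) ≤ e n / 2) ∧ (∀ n, e (n + 1) ≤ 1 - r n) ∧ (∀ n, 0 < r n) ∧
      (∀ n, r n < 1) ∧ (∀ n, 1 - r n ≤ e n) ∧
      (∀ n (z : ℂ), ‖z‖ ≤ 1 - e n →
        ‖(u (n + 1)).P z - (u n).P z‖ ≤ e n ∧ ‖(u (n + 1)).h z - (u n).h z‖ ≤ e n) ∧
      (∀ n (z : ℂ), ‖z‖ ≤ 1 → ‖(u (n + 1)).y z - (u n).y z‖ ≤ e n) ∧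
      ∀ n, (1 - e n) * (-Real.log (1 - r n)) ≤
        Real.circleAverage (fun z => max ((u (n + 1)).h z).re 0) 0 (r n) := by
  obtain ⟨⟨u₀⟩, hs⟩ := h
  let T := St × {e : ℝ // 0 < e ∧ e ≤ 1}
  have hs' := fun x : T => hs x.1 x.2.1 x.2.2.1 x.2.2.2
  choose v δ r hδ0 hδ hr0 hr1 hrδ hP hy hm using hs'
  let nx : T → T := fun x => (v x, ⟨min (x.2.1 / 2) (1 - r x),
    lt_min (half_pos x.2.2.1) (sub_pos.2 (hr1 x)),
    (min_le_left _ _).trans (by linarith [x.2.2.1, x.2.2.2])⟩)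
  let x : ℕ → T := fun n => nx^[n] (u₀, ⟨1, one_pos, le_rfl⟩)
  have hx : ∀ n, x (n + 1) = nx (x n) := fun n => Function.iterate_succ_apply' _ _ _
  refine ⟨fun n => (x n).1, fun n => (x n).2.1, fun n => r (x n), fun n => (x n).2.2.1,
    fun n => (x n).2.2.2, fun n => ?_, fun n => ?_, fun n => hr0 _, fun n => hr1 _,
    fun n => (hrδ _).trans (hδ _), fun n z hz => ?_, fun n z hz => ?_, fun n => ?_⟩
  · simp only [hx]; exact min_le_left _ _
  · simp only [hx]; exact min_le_right _ _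
  · simp only [hx]; exact hP _ z (by linarith [hδ (x n)])
  · simp only [hx]; exact hy _ z hz
  · simp only [hx]; exact hm _

theorem good (h : StmtStage2) : StmtGood := by
  obtain ⟨u, e, r, h0, h1, hh, her, hr0, hr1, hre, hP, hy, hm⟩ := good_seq h
  have hD : ∀ n (z : ℂ), ‖z‖ ≤ 1 - e n → ‖z‖ ≤ 1 - e (n + 1) := fun n z hz => by
    linarith [good_anti h0 hh n]
  obtain ⟨P, hPl⟩ := good_lim h0 hh (fun n => (u n).P) (fun n z => ‖z‖ ≤ 1 - e n) hD
    fun n z hz => (hP n z hz).1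
  obtain ⟨H, hHl⟩ := good_lim h0 hh (fun n => (u n).h) (fun n z => ‖z‖ ≤ 1 - e n) hD
    fun n z hz => (hP n z hz).2
  obtain ⟨Y, hYl⟩ := good_lim h0 hh (fun n => (u n).y) (fun _ z => ‖z‖ ≤ 1) (fun _ _ hz => hz) hy
  have tP := good_loc h0 hh hPl
  have tH := good_loc h0 hh hHl
  have tY := good_loc h0 hh (F := fun n => (u n).y) (G := Y)
    fun n z hz => hYl n z (by linarith [h0 n])
  have dH := good_der tH tP fun n => (u n).hh
  have dY := good_der tY tH fun n => (u n).hy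
  have hc : ContinuousOn (u 0).y (closedBall 0 1) := fun z hz =>
    ((u 0).hy z (closedBall_subset_ball (by norm_num) hz)).continuousAt.continuousWithinAt
  obtain ⟨M, hM⟩ := (isCompact_closedBall (0 : ℂ) 1).exists_bound_of_continuousOn hc
  refine ⟨H, Y, M + 2 * e 0, fun z hz => (dH z hz).differentiableAt.differentiableWithinAt,
    fun z hz => ?_, ?_, dY, fun z hz => ?_, fun ε hε => ?_⟩
  · rw [(dH z hz).deriv]
    exact Complex.exp_ne_zero _
  · have t := tH.tendsto_at (mem_ball_self one_pos)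
    simp only [St.h0] at t
    exact (tendsto_nhds_unique tendsto_const_nhds t).symm
  · have a := hYl 0 z (mem_ball_zero_iff.1 hz).le
    have b := hM z (ball_subset_closedBall hz)
    have c : ‖Y z‖ ≤ ‖Y z - (u 0).y z‖ + ‖(u 0).y z‖ := by
      simpa using norm_add_le (Y z - (u 0).y z) ((u 0).y z)
    linarith
  · obtain ⟨n, hn⟩ := ((good_zero h0 hh).eventually (gt_mem_nhds hε)).exists
    refine ⟨r n, hr0 n, by linarith [hre n], hr1 n, ?_⟩
    have hl : 0 ≤ -Real.log (1 - r n) :=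
      neg_nonneg.2 (Real.log_nonpos (by linarith [hr1 n]) (by linarith [hr0 n]))
    have hs1 : sphere (0 : ℂ) (r n) ⊆ ball 0 1 := sphere_subset_closedBall.trans
      (closedBall_subset_ball (hr1 n))
    have cm : Continuous fun w : ℂ => max w.re 0 := Complex.continuous_re.max continuous_const
    have c1 : ContinuousOn (fun z => max ((u (n + 1)).h z).re 0) (sphere 0 (r n)) := fun z hz =>
      (cm.continuousAt.comp ((u (n + 1)).hh z
        (ball_subset_ball (by norm_num) (hs1 hz))).continuousAt).continuousWithinAt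
    have c2 : ContinuousOn (fun z => max (H z).re 0) (sphere 0 (r n)) := fun z hz =>
      (cm.continuousAt.comp (dH z (hs1 hz)).continuousAt).continuousWithinAt
    have i1 := c1.circleIntegrable (hr0 n).le
    have i2 := c2.circleIntegrable (hr0 n).le
    have i3 : CircleIntegrable (fun _ : ℂ => (1 : ℝ)) 0 (r n) := circleIntegrable_const _ _ _
    have hmono := Real.circleAverage_mono i1 (i2.add i3) fun z hz => by
      rw [abs_of_pos (hr0 n), mem_sphere_zero_iff_norm] at hz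
      have a := hHl (n + 1) z (by linarith [her n])
      have b := (Complex.abs_re_le_norm (H z - (u (n + 1)).h z)).trans a
      rw [Complex.sub_re, abs_le] at b
      have c := hh n
      have d := h1 n
      simp only [Pi.add_apply]
      refine max_le ?_ ?_
      · linarith [le_max_left (H z).re 0]
      · linarith [le_max_right (H z).re 0]
    rw [Real.circleAverage_add i2 i3, Real.circleAverage_const] at hmono
    have := mul_le_mul_of_nonneg_right (show 1 - ε ≤ 1 - e n by linarith) hl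
    linarith [hm n]

end Pool.Agent.Work.MP_6ac3f6_an.Lo
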