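import Pool.Agent.Work.MP_6ac3f6_an.Lo.Defs

/-!
A lower bound for a circle mean: self-maps of the disc that fix zero are rarely close to one.
-/

set_option autoImplicit false

namespace Pool.Agent.Work.MP_6ac3f6_an.Lo

open Metric Filter Topology Set

theorem mean_ne {u : ℂ} (hu : ‖u‖ < 1) : 1 - u ≠ 0 := by
  intro h
  have : u = 1 := (sub_eq_zero.mp h).symm
  rw [this, norm_one] at hu
  exact lt_irrefl _ hu

theorem mean_log (w : ℂ → ℂ) (R r : ℝ) (hr : 0 < r) (hR : r < R)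
    (hw : DifferentiableOn ℂ w (ball 0 R)) (hlt : ∀ z ∈ ball (0 : ℂ) R, ‖w z‖ < 1)
    (h0 : w 0 = 0) :
    CircleIntegrable (fun z => Real.log ‖1 - w z‖) 0 r ∧
      Real.circleAverage (fun z => Real.log ‖1 - w z‖) 0 r = 0 := by
  have hsub : closedBall (0 : ℂ) |r| ⊆ ball 0 R := by
    rw [abs_of_pos hr]; exact closedBall_subset_ball hR
  have han : AnalyticOnNhd ℂ (fun z => 1 - w z) (closedBall (0 : ℂ) |r|) :=
    (analyticOnNhd_const.sub (hw.analyticOnNhd isOpen_ball)).mono hsub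
  have hne : ∀ z ∈ closedBall (0 : ℂ) |r|, 1 - w z ≠ 0 := fun z hz => mean_ne (hlt z (hsub hz))
  refine ⟨?_, ?_⟩
  · apply ContinuousOn.circleIntegrable hr.le
    have hs : sphere (0 : ℂ) r ⊆ closedBall (0 : ℂ) |r| := by
      rw [abs_of_pos hr]; exact sphere_subset_closedBall
    exact (han.continuousOn.mono hs).norm.log fun z hz => norm_ne_zero_iff.mpr (hne z (hs hz))
  · have := han.circleAverage_log_norm_of_ne_zero hne
    simpa [h0] using this

theorem mean_a {u : ℂ} (hu : ‖u‖ < 1) : 0 ≤ Real.log 2 - Real.log ‖1 - u‖ := by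
  have h1 : 0 < ‖1 - u‖ := norm_pos_iff.mpr (mean_ne hu)
  have h2 : ‖1 - u‖ ≤ 2 := by
    have := norm_sub_le (1 : ℂ) u
    rw [norm_one] at this
    linarith
  have := Real.log_le_log h1 h2
  linarith

theorem mean_b {u : ℂ} {φ : ℝ} (hu : ‖u‖ < 1) (hφ : 0 < φ) (h : ‖1 - u‖ < φ) :
    Real.log (2 / φ) ≤ Real.log 2 - Real.log ‖1 - u‖ := by
  have h1 : 0 < ‖1 - u‖ := norm_pos_iff.mpr (mean_ne hu)
  rw [Real.log_div (by norm_num) hφ.ne']
  have := Real.log_le_log h1 h.le
  linarith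

theorem mean : StmtMean := by
  intro w q g R r A τ φ hr hR hφ hφ1 hA hτ hw hq hw1 hq1 hw0 hq0 hg hg0 hgA
  obtain ⟨iw, mw⟩ := mean_log w R r hr hR hw hw1 hw0
  obtain ⟨iq, mq⟩ := mean_log q R r hr hR hq hq1 hq0
  set L := Real.log (2 / φ) with hL
  have hLp : 0 < L := Real.log_pos (by rw [lt_div_iff₀ hφ]; linarith)
  have ig : CircleIntegrable g 0 r := hg.circleIntegrable hr.le
  set c := A * (1 - τ - 2 * Real.log 2 / L) with hc
  have isum : CircleIntegrable (fun z => Real.log ‖1 - w z‖ + Real.log ‖1 - q z‖) 0 r :=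
    iw.add iq
  have ismul : CircleIntegrable
      (fun z => (A / L) • (Real.log ‖1 - w z‖ + Real.log ‖1 - q z‖)) 0 r := isum.const_smul
  have ic : CircleIntegrable (fun _ : ℂ => c) 0 r := circleIntegrable_const c 0 r
  have hav : Real.circleAverage
      (fun z => c + (A / L) • (Real.log ‖1 - w z‖ + Real.log ‖1 - q z‖)) 0 r = c := by
    rw [Real.circleAverage_fun_add ic ismul, Real.circleAverage_const,
      Real.circleAverage_fun_smul, Real.circleAverage_fun_add iw iq, mw, mq]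
    simp
  rw [← hav]
  refine Real.circleAverage_mono (ic.add ismul) ig ?_
  intro z hz
  rw [abs_of_pos hr] at hz
  have hzr : ‖z‖ = r := by simpa using hz
  have hzR : z ∈ ball (0 : ℂ) R := by simpa [hzr] using hR
  have ha := mean_a (hw1 z hzR)
  have hb := mean_a (hq1 z hzR)
  have key : c + (A / L) • (Real.log ‖1 - w z‖ + Real.log ‖1 - q z‖) =
      A * (1 - τ - (Real.log 2 - Real.log ‖1 - w z‖) / L
        - (Real.log 2 - Real.log ‖1 - q z‖) / L) := by
    rw [hc, smul_eq_mul]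
    field_simp
    ring
  show c + (A / L) • (Real.log ‖1 - w z‖ + Real.log ‖1 - q z‖) ≤ g z
  rw [key]
  have ha' := div_nonneg ha hLp.le
  have hb' := div_nonneg hb hLp.le
  by_cases h1 : φ ≤ ‖1 - w z‖
  · by_cases h2 : φ ≤ ‖1 - q z‖
    · refine le_trans (mul_le_mul_of_nonneg_left ?_ hA) (hgA z hzr h2 h1)
      linarith
    · have h3 := mean_b (hq1 z hzR) hφ (not_le.mp h2)
      have h4 : 1 ≤ (Real.log 2 - Real.log ‖1 - q z‖) / L := by
        rw [le_div_iff₀ hLp, one_mul]; exact h3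
      refine le_trans (mul_nonpos_of_nonneg_of_nonpos hA ?_) (hg0 z hzr)
      linarith
  · have h3 := mean_b (hw1 z hzR) hφ (not_le.mp h1)
    have h4 : 1 ≤ (Real.log 2 - Real.log ‖1 - w z‖) / L := by
      rw [le_div_iff₀ hLp, one_mul]; exact h3
    refine le_trans (mul_nonpos_of_nonneg_of_nonpos hA ?_) (hg0 z hzr)
    linarith

end Pool.Agent.Work.MP_6ac3f6_an.Lo
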