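import Pool.Agent.Work.MP_6ac3f6_an.Lo.Defs

/-! The numerical parameters of one stage exist. -/

set_option autoImplicit false

namespace Pool.Agent.Work.MP_6ac3f6_an.Lo

open Filter Topology

theorem num_exp (c ε : ℝ) (hc : 0 < c) (hε : 0 < ε) :
    ∀ᶠ L : ℝ in atTop, L * Real.exp (-(c * L)) ≤ ε := by
  have h := Real.tendsto_pow_mul_exp_neg_atTop_nhds_zero 1
  have h2 : Tendsto (fun L : ℝ => c * L) atTop atTop := tendsto_id.const_mul_atTop hc
  have h3 := (h.comp h2).eventually (ge_mem_nhds (mul_pos hc hε))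
  filter_upwards [h3] with L hL
  simp only [Function.comp, pow_one] at hL
  exact le_of_mul_le_mul_left (by linarith) hc

theorem num_log (η : ℝ) (hη : 0 < η) :
    ∀ᶠ L : ℝ in atTop, Real.log 4 + 2 * Real.log L ≤ η * L := by
  have h := Real.isLittleO_log_id_atTop.bound (c := η / 4) (by positivity)
  filter_upwards [h, eventually_ge_atTop (2 * Real.log 4 / η), eventually_ge_atTop 0]
    with L h1 h2 h3
  simp only [id, Real.norm_eq_abs] at h1
  rw [abs_of_nonneg h3] at h1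
  have h4 := le_abs_self (Real.log L)
  rw [div_le_iff₀ hη] at h2
  nlinarith

theorem num_aux (θ η : ℝ) (h0 : 0 < θ) (h1 : θ < 1) (h2 : 0 < η) (h3 : η ≤ θ / 8) :
    (1 - θ) * (1 + η) ^ 2 ≤ 1 - θ / 2 := by
  have h4 : η * η ≤ η * 1 := mul_le_mul_of_nonneg_left (by linarith) h2.le
  have h5 : (1 + η) ^ 2 ≤ 1 + 3 * θ / 8 := by linarith [show (1 + η) ^ 2 = 1 + 2 * η + η * η by ring]
  have h6 := mul_le_mul_of_nonneg_left h5 (show 0 ≤ 1 - θ by linarith)
  have h7 := mul_pos h0 h0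
  linarith

theorem num : StmtNum := by
  intro B d σ φ θ hB hσ hσ1 hφ hφ1 hθ hθ1
  obtain ⟨η, hη, hη1, hη2⟩ : ∃ η : ℝ, 0 < η ∧ η ≤ θ / 8 ∧ η * (192 * (5 * B + 4)) ≤ σ := by
    refine ⟨min (θ / 8) (σ / (192 * (5 * B + 4))), by positivity, min_le_left _ _, ?_⟩
    rw [← le_div_iff₀ (by positivity)]
    exact min_le_right _ _
  have hT : Tendsto (fun N : ℕ => Real.log (N : ℝ)) atTop atTop :=
    Real.tendsto_log_atTop.comp tendsto_natCast_atTop_atTop
  have hev : ∀ᶠ L : ℝ in atTop, Real.log 4 + 2 * Real.log L ≤ η * L ∧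
      L * Real.exp (-(1 / 2 * L)) ≤ σ / 30 ∧
      L * Real.exp (-(1 / 10 * L)) ≤ 1 / (9 * Real.exp (B + 1)) ∧
      L * Real.exp (-(θ / 2 * L)) ≤ θ / Real.exp 1 ∧
      L * Real.exp (-(1 * L)) ≤ θ / 2 ∧ 2 * B + 4 ≤ L ∧ 2 * (d : ℝ) ≤ L ∧
      32 * d * B / σ ≤ L ∧ 32 * (4 * Real.exp (B + 1) + 2) / σ ≤ L ∧ 96 / (σ * φ ^ 2) ≤ L ∧
      4 / θ ≤ L := by
    filter_upwards [num_log η hη, num_exp (1 / 2) (σ / 30) (by norm_num) (by positivity),
      num_exp (1 / 10) (1 / (9 * Real.exp (B + 1))) (by norm_num) (by positivity),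
      num_exp (θ / 2) (θ / Real.exp 1) (by positivity) (by positivity),
      num_exp 1 (θ / 2) (by norm_num) (by positivity), eventually_ge_atTop (2 * B + 4),
      eventually_ge_atTop (2 * (d : ℝ)), eventually_ge_atTop (32 * d * B / σ),
      eventually_ge_atTop (32 * (4 * Real.exp (B + 1) + 2) / σ),
      eventually_ge_atTop (96 / (σ * φ ^ 2)), eventually_ge_atTop (4 / θ)]
      with L a1 a2 a3 a4 a5 a6 a7 a8 a9 a10 a11
    exact ⟨a1, a2, a3, a4, a5, a6, a7, a8, a9, a10, a11⟩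
  obtain ⟨N, hN1, e1, e2, e3, e4, e5, e6, e7, e8, e9, e10, e11⟩ :=
    ((eventually_ge_atTop 1).and (hT.eventually hev)).exists
  clear hev hT
  have hNpos : (0 : ℝ) < N := by exact_mod_cast hN1
  have hNe : Real.exp (Real.log N) = N := Real.exp_log hNpos
  generalize hL : Real.log (N : ℝ) = L at *
  have hL4 : 4 ≤ L := by linarith
  have hL0 : 0 < L := by linarith
  have hLN : L ≤ N := by
    have := Real.add_one_le_exp L
    linarith
  obtain ⟨κ, hκ, hκ1, hκ2⟩ : ∃ κ : ℝ, (1 + σ) * κ = 1 - θ / 2 ∧ 1 / 4 ≤ κ ∧ κ ≤ 1 := by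
    refine ⟨(1 - θ / 2) / (1 + σ), by field_simp, ?_, ?_⟩
    · rw [le_div_iff₀ (by positivity)]
      linarith
    · rw [div_le_iff₀ (by positivity)]
      linarith
  have hL2 : 4 * L ≤ L ^ 2 := by
    rw [sq]
    exact mul_le_mul_of_nonneg_right hL4 hL0.le
  have hκL : 1 / 4 * L ^ 2 ≤ κ * L ^ 2 := mul_le_mul_of_nonneg_right hκ1 (sq_nonneg L)
  have hκL' : κ * L ^ 2 ≤ 1 * L ^ 2 := mul_le_mul_of_nonneg_right hκ2 (sq_nonneg L)
  have hq : 1 ≤ 4 * κ * L ^ 2 := by linarith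
  obtain ⟨γ, hγe, hγ1, hγ2⟩ : ∃ γ : ℝ, Real.exp γ = N * (4 * κ * L ^ 2) ∧ L ≤ γ ∧
      γ ≤ (1 + η) * L := by
    refine ⟨L + Real.log (4 * κ * L ^ 2), ?_, ?_, ?_⟩
    · rw [Real.exp_add, hNe, Real.exp_log (by linarith)]
    · have := Real.log_nonneg hq
      linarith
    · have h1 : Real.log (4 * κ * L ^ 2) ≤ Real.log (4 * L ^ 2) :=
        Real.log_le_log (by linarith) (by linarith)
      have h2 : Real.log (4 * L ^ 2) = Real.log 4 + 2 * Real.log L := by
        rw [Real.log_mul (by norm_num) (by positivity), Real.log_pow]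
        norm_num
      linarith
  have hγ0 : 0 < γ := by linarith
  have hη8 : η ≤ 1 / 8 := by linarith
  have hγ3 : γ ≤ 9 / 8 * L := by
    have := mul_le_mul_of_nonneg_right hη8 hL0.le
    linarith
  have hLγ : L * γ ≤ 9 / 8 * L ^ 2 := by
    have := mul_le_mul_of_nonneg_left hγ3 hL0.le
    linarith
  have hγ4 : 4 * 4 ≤ γ ^ 2 := by
    rw [sq]
    exact mul_le_mul (by linarith) (by linarith) (by norm_num) hγ0.le
  have hlg : 2 * Real.log γ ≤ η * L := by
    have h1 : Real.log γ ≤ Real.log (2 * L) := Real.log_le_log hγ0 (by linarith)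
    rw [Real.log_mul (by norm_num) hL0.ne'] at h1
    have h2 : Real.log 4 = 2 * Real.log 2 := by
      rw [show (4 : ℝ) = 2 ^ 2 by norm_num, Real.log_pow]
      norm_num
    linarith
  have hS : Sc N γ = 2 * κ * L ^ 2 / γ := by
    rw [Sc, hγe]
    field_simp
    ring
  have hH : Ht N γ σ = (1 - θ / 2) * L ^ 2 / γ := by
    rw [Ht, hS, ← hκ]
    field_simp
  have hδ : L / N = L * Real.exp (-L) := by
    rw [Real.exp_neg, hNe, div_eq_mul_inv]
  have hδθ : L / N ≤ θ / 2 := by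
    rw [hδ]
    simpa using e5
  refine ⟨N, γ, 1 / γ ^ 2, L / N, ⟨?_, hN1, by linarith, ?_, by positivity, ?_, ?_, by linarith,
    ?_, ?_, ?_, ?_, ?_⟩, by linarith, ?_, ?_, ?_⟩
  · have : ((2 * d : ℕ) : ℝ) ≤ N := by
      push_cast
      linarith
    exact_mod_cast this
  · rw [div_le_iff₀ hσ] at e8
    rw [div_le_iff₀ hNpos]
    have := mul_le_mul_of_nonneg_right hLN hσ.le
    linarith
  · rw [div_le_iff₀ (by positivity)]
    linarith
  · rw [div_le_div_iff₀ (by positivity) hNpos]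
    have := mul_le_mul_of_nonneg_right hL4 hNpos.le
    linarith
  · have h1 : -(L / N * N / 2) = -(1 / 2 * L) := by field_simp
    rw [h1]
    have h2 := Real.exp_pos (-(1 / 2 * L))
    have h3 : 10 * (B + γ) ≤ 30 * L := by linarith
    have h4 := mul_le_mul_of_nonneg_right h3 h2.le
    linarith
  · rw [hδ]
    have h1 : Real.exp (4 * γ / 5 + B + 1) * Real.exp (-L) ≤
        Real.exp (B + 1) * Real.exp (-(1 / 10 * L)) := by
      rw [← Real.exp_add, ← Real.exp_add]
      exact Real.exp_le_exp.2 (by linarith)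
    rw [le_div_iff₀ (by positivity)] at e3
    have h2 := mul_le_mul_of_nonneg_left h1 hL0.le
    linarith
  · have h1 : Real.log (1 / (2 * (1 / γ ^ 2))) ≤ η * L := by
      have h2 : Real.log (1 / (2 * (1 / γ ^ 2))) ≤ Real.log (γ ^ 2) := by
        refine Real.log_le_log (by positivity) ?_
        rw [show 1 / (2 * (1 / γ ^ 2)) = γ ^ 2 / 2 by field_simp]
        linarith
      rw [Real.log_pow] at h2
      push_cast at h2
      linarith
    have h3 : 0 < γ - B := by linarith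
    have h4 : 12 * (5 * B + 4) / (γ - B) ≤ 24 * (5 * B + 4) / L := by
      rw [div_le_div_iff₀ h3 hL0]
      have h5 : L ≤ 2 * (γ - B) := by linarith
      have h6 := mul_le_mul_of_nonneg_left h5 (show 0 ≤ 12 * (5 * B + 4) by positivity)
      linarith
    calc _ ≤ 12 * (5 * B + 4) / (γ - B) * (η * L) :=
          mul_le_mul_of_nonneg_left h1 (by positivity)
      _ ≤ 24 * (5 * B + 4) / L * (η * L) := mul_le_mul_of_nonneg_right h4 (by positivity)
      _ = η * (192 * (5 * B + 4)) / 8 := by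
          field_simp
          ring
      _ ≤ σ / 8 := by linarith
  · have h1 : L / 4 ≤ Sc N γ := by
      rw [hS, le_div_iff₀ hγ0]
      linarith
    rw [div_le_iff₀ hσ] at e9
    have h2 := mul_le_mul_of_nonneg_right h1 hσ.le
    linarith
  · rw [div_le_iff₀ (by positivity)] at e10
    rw [show 12 * γ * (1 / γ ^ 2) / φ ^ 2 = 12 / (γ * φ ^ 2) by field_simp,
      div_le_iff₀ (by positivity)]
    have : L * (σ * φ ^ 2) ≤ γ * (σ * φ ^ 2) := mul_le_mul_of_nonneg_right hγ1 (by positivity)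
    linarith
  · have h1 : L / 4 ≤ Ht N γ σ := by
      rw [hH, le_div_iff₀ hγ0]
      have := mul_le_mul_of_nonneg_right hθ1.le (sq_nonneg L)
      linarith
    rw [div_le_iff₀ hθ] at e11
    have h2 := mul_le_mul_of_nonneg_left h1 hθ.le
    linarith
  · have h1 : Ht N γ σ ≤ (1 - θ / 2) * L := by
      rw [hH, div_le_iff₀ hγ0]
      have h3 : 0 ≤ (1 - θ / 2) * L := mul_nonneg (by linarith) hL0.le
      have h4 := mul_le_mul_of_nonneg_left hγ1 h3
      linarith
    rw [hδ]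
    have h2 : Real.exp (Ht N γ σ + 1) * Real.exp (-L) ≤
        Real.exp 1 * Real.exp (-(θ / 2 * L)) := by
      rw [← Real.exp_add, ← Real.exp_add]
      exact Real.exp_le_exp.2 (by linarith)
    rw [le_div_iff₀ (by positivity)] at e4
    have h3 := mul_le_mul_of_nonneg_left h2 hL0.le
    linarith
  · have h1 : Real.log (N / (1 / γ ^ 2)) = L + 2 * Real.log γ := by
      rw [show (N : ℝ) / (1 / γ ^ 2) = N * γ ^ 2 by field_simp,
        Real.log_mul hNpos.ne' (by positivity), Real.log_pow, hL]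
      norm_num
    have h2 : (1 - θ) * (1 + η) ^ 2 ≤ 1 - θ / 2 := num_aux θ η hθ hθ1 hη hη1
    have h3 : (1 - θ) * (L + 2 * Real.log γ) ≤ (1 - θ) * ((1 + η) * L) :=
      mul_le_mul_of_nonneg_left (by linarith) (by linarith)
    rw [h1, hH]
    refine h3.trans ?_
    rw [le_div_iff₀ hγ0]
    have h4 : 0 ≤ (1 - θ) * ((1 + η) * L) := mul_nonneg (by linarith) (by positivity)
    calc _ ≤ (1 - θ) * ((1 + η) * L) * ((1 + η) * L) := mul_le_mul_of_nonneg_left hγ2 h4
      _ = (1 - θ) * (1 + η) ^ 2 * L ^ 2 := by ring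
      _ ≤ _ := mul_le_mul_of_nonneg_right h2 (by positivity)

end Pool.Agent.Work.MP_6ac3f6_an.Lo
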