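import Pool.Agent.Work.MP_6ac3f6_an.Lo.Defs

/-! Size and real part of the exponent. -/

set_option autoImplicit false

namespace Pool.Agent.Work.MP_6ac3f6_an.Lo

open Metric Filter Topology Set

theorem phie_q {z : ℂ} {N : ℕ} (hN : 1 ≤ N) (hz : ‖z‖ < 1) : ‖z ^ N‖ < 1 := by
  rw [norm_pow]
  exact pow_lt_one₀ (norm_nonneg z) hz (by omega)

theorem phie_den {q : ℂ} : 1 - ‖q‖ ≤ ‖1 - q‖ := by
  have h := norm_sub_norm_le (1 : ℂ) q
  rwa [norm_one] at h

theorem phie_ne {q : ℂ} (hq : ‖q‖ < 1) : 1 - q ≠ 0 := by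
  intro h
  have h2 := phie_den (q := q)
  rw [h, norm_zero] at h2
  linarith

theorem phie_pol {d : ℕ} {a : ℕ → ℂ} {B : ℝ} (hB : ∑ j ∈ Finset.range d, ‖a j‖ ≤ B) {z : ℂ}
    (hz : ‖z‖ ≤ 1) : ‖pol d a z‖ ≤ B := by
  refine (norm_sum_le _ _).trans (le_trans (Finset.sum_le_sum fun j _ => ?_) hB)
  rw [norm_mul, norm_pow]
  exact mul_le_of_le_one_right (norm_nonneg _) (pow_le_one₀ (norm_nonneg _) hz)

theorem phie_rev {d N : ℕ} {a : ℕ → ℂ} {B : ℝ} (hB : ∑ j ∈ Finset.range d, ‖a j‖ ≤ B) {z : ℂ}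
    (hz : ‖z‖ ≤ 1) : ‖rev d N a z‖ ≤ B * ‖z‖ ^ (N - d) := by
  refine (norm_sum_le _ _).trans ?_
  refine le_trans ?_ (mul_le_mul_of_nonneg_right hB (pow_nonneg (norm_nonneg z) _))
  rw [Finset.sum_mul]
  refine Finset.sum_le_sum fun j hj => ?_
  have hj' := Finset.mem_range.1 hj
  rw [norm_mul, norm_pow, Complex.norm_conj]
  exact mul_le_mul_of_nonneg_left (pow_le_pow_of_le_one (norm_nonneg z) hz (by omega))
    (norm_nonneg _)

theorem phie_re (P q : ℂ) (γ : ℝ) (hq : 1 - q ≠ 0) :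
    ((P + q * (starRingEnd ℂ) P - 2 * γ * q) / (1 - q)).re = γ - (γ - P.re) * Po q := by
  have h0 : Complex.normSq (1 - q) ≠ 0 := by
    rw [Ne, Complex.normSq_eq_zero]; exact hq
  unfold Po
  rw [Complex.div_re, ← Complex.normSq_eq_norm_sq, ← Complex.normSq_eq_norm_sq]
  field_simp
  simp only [Complex.normSq_apply, Complex.sub_re, Complex.add_re, Complex.mul_re, Complex.sub_im,
    Complex.add_im, Complex.mul_im, Complex.conj_re, Complex.conj_im, Complex.one_re,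
    Complex.one_im, Complex.ofReal_re, Complex.ofReal_im, Complex.re_ofNat, Complex.im_ofNat]
  ring

theorem phie_bern {t : ℝ} (h0 : 0 ≤ t) (n : ℕ) : 1 - t ^ n ≤ n * (1 - t) := by
  have h := one_add_mul_le_pow (a := t - 1) (by linarith) n
  have h2 : 1 + (t - 1) = t := by ring
  rw [h2] at h
  linarith

theorem phie_geom {t : ℝ} (h0 : 0 ≤ t) (h1 : t ≤ 1) (n : ℕ) :
    n * (t ^ n * (1 - t)) ≤ 1 - t ^ n := by
  induction n with
  | zero => simp
  | succ n ih =>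
    have hp : 0 ≤ t ^ n := pow_nonneg h0 n
    have h2 : 0 ≤ t ^ n * (1 - t) := mul_nonneg hp (by linarith)
    have h3 : t * (t ^ n * (1 - t)) ≤ t ^ n * (1 - t) := mul_le_of_le_one_left h2 h1
    have h4 : (n : ℝ) * (t * (t ^ n * (1 - t))) ≤ n * (t ^ n * (1 - t)) :=
      mul_le_mul_of_nonneg_left h3 (Nat.cast_nonneg n)
    have h5 : ((n + 1 : ℕ) : ℝ) * (t ^ (n + 1) * (1 - t)) =
        n * (t * (t ^ n * (1 - t))) + t * (t ^ n * (1 - t)) := by
      push_cast; ring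
    have h6 : 1 - t ^ (n + 1) = 1 - t ^ n + t ^ n * (1 - t) := by ring
    rw [h5, h6]
    linarith

theorem phie_err {d N : ℕ} {a : ℕ → ℂ} {B : ℝ} (hB : ∑ j ∈ Finset.range d, ‖a j‖ ≤ B)
    (hd : 2 * d ≤ N) {z : ℂ} (hz : ‖z‖ ≤ 1) :
    ‖rev d N a z - z ^ N * (starRingEnd ℂ) (pol d a z)‖ ≤
      B * (2 * d * (‖z‖ ^ (N - d) * (1 - ‖z‖))) := by
  have h0 := norm_nonneg z
  have hc : 0 ≤ 2 * (d : ℝ) * (‖z‖ ^ (N - d) * (1 - ‖z‖)) :=
    mul_nonneg (by positivity) (mul_nonneg (pow_nonneg h0 _) (by linarith))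
  have he : rev d N a z - z ^ N * (starRingEnd ℂ) (pol d a z) =
      ∑ j ∈ Finset.range d, (starRingEnd ℂ) (a j) * (z ^ (N - j) * ((1 - ‖z‖ ^ (2 * j) : ℝ) : ℂ)) := by
    unfold rev pol
    rw [map_sum, Finset.mul_sum, ← Finset.sum_sub_distrib]
    refine Finset.sum_congr rfl fun j hj => ?_
    have hj' := Finset.mem_range.1 hj
    have h1 : z ^ N = z ^ (N - j) * z ^ j := by
      rw [← pow_add]; congr 1; omega
    have h2 : ((‖z‖ ^ (2 * j) : ℝ) : ℂ) = z ^ j * (starRingEnd ℂ) z ^ j := by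
      rw [← mul_pow, Complex.mul_conj, Complex.normSq_eq_norm_sq, pow_mul]
      push_cast; rfl
    rw [Complex.ofReal_sub, h2, map_mul, map_pow, h1, Complex.ofReal_one]
    ring
  rw [he]
  refine (norm_sum_le _ _).trans ?_
  refine le_trans ?_ (mul_le_mul_of_nonneg_right hB hc)
  rw [Finset.sum_mul]
  refine Finset.sum_le_sum fun j hj => ?_
  have hj' := Finset.mem_range.1 hj
  rw [norm_mul, norm_mul, norm_pow, Complex.norm_conj, Complex.norm_real, Real.norm_eq_abs,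
    abs_of_nonneg (sub_nonneg.2 (pow_le_one₀ h0 hz))]
  refine mul_le_mul_of_nonneg_left ?_ (norm_nonneg _)
  have h1 : ‖z‖ ^ (N - j) ≤ ‖z‖ ^ (N - d) := pow_le_pow_of_le_one h0 hz (by omega)
  have h2 : 1 - ‖z‖ ^ (2 * j) ≤ 2 * d * (1 - ‖z‖) := by
    refine (phie_bern h0 (2 * j)).trans (mul_le_mul_of_nonneg_right ?_ (by linarith))
    have : ((2 * j : ℕ) : ℝ) ≤ ((2 * d : ℕ) : ℝ) := Nat.cast_le.2 (by omega)
    push_cast at this ⊢
    exact this
  calc ‖z‖ ^ (N - j) * (1 - ‖z‖ ^ (2 * j)) ≤ ‖z‖ ^ (N - d) * (2 * d * (1 - ‖z‖)) :=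
        mul_le_mul h1 h2 (sub_nonneg.2 (pow_le_one₀ h0 hz)) (pow_nonneg h0 _)
    _ = 2 * d * (‖z‖ ^ (N - d) * (1 - ‖z‖)) := by ring

theorem phi : StmtPhi := by
  intro d N a γ B hB hd hN hγ
  have hB0 : 0 ≤ B := le_trans (Finset.sum_nonneg fun j _ => norm_nonneg _) hB
  have hNr : (0 : ℝ) < N := by exact_mod_cast hN
  refine ⟨?_, fun z hz => phie_pol hB hz, fun z hz => ?_, fun z β hz hβ hβ' => ?_⟩
  · unfold Phi pol rev
    refine DifferentiableOn.div (by fun_prop) (by fun_prop) fun z hz => ?_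
    exact phie_ne (phie_q hN (by simpa using hz))
  · have hq := phie_q hN hz
    have hne := phie_ne hq
    have h0 := norm_nonneg z
    have hsplit : Phi d N a γ z =
        (pol d a z + z ^ N * (starRingEnd ℂ) (pol d a z) - 2 * γ * z ^ N) / (1 - z ^ N) +
          (rev d N a z - z ^ N * (starRingEnd ℂ) (pol d a z)) / (1 - z ^ N) := by
      unfold Phi
      rw [← add_div]
      congr 1
      ring
    rw [hsplit, Complex.add_re, phie_re _ _ _ hne, add_sub_cancel_left]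
    refine (Complex.abs_re_le_norm _).trans ?_
    rw [norm_div, div_le_div_iff₀ (norm_pos_iff.2 hne) hNr]
    have h1 := phie_err hB hd hz.le
    have h2 := phie_geom h0 hz.le (N - d)
    have h3 : ‖z‖ ^ N ≤ ‖z‖ ^ (N - d) := pow_le_pow_of_le_one h0 hz.le (by omega)
    have h4 := phie_den (q := z ^ N)
    rw [norm_pow] at h4
    have h5 : (N : ℝ) ≤ 2 * ((N - d : ℕ) : ℝ) := by
      have : N ≤ 2 * (N - d) := by omega
      exact_mod_cast this
    have h6 : 0 ≤ ‖z‖ ^ (N - d) * (1 - ‖z‖) := mul_nonneg (pow_nonneg h0 _) (by linarith)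
    have h7 : (‖z‖ ^ (N - d) * (1 - ‖z‖)) * N ≤ 2 * ‖1 - z ^ N‖ := by
      have := mul_le_mul_of_nonneg_left h5 h6
      linarith
    have h8 : 0 ≤ 2 * (d : ℝ) * B := by positivity
    calc ‖rev d N a z - z ^ N * (starRingEnd ℂ) (pol d a z)‖ * N
        ≤ B * (2 * d * (‖z‖ ^ (N - d) * (1 - ‖z‖))) * N := mul_le_mul_of_nonneg_right h1 hNr.le
      _ = 2 * d * B * ((‖z‖ ^ (N - d) * (1 - ‖z‖)) * N) := by ring
      _ ≤ 2 * d * B * (2 * ‖1 - z ^ N‖) := mul_le_mul_of_nonneg_left h7 h8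
      _ = 4 * d * B * ‖1 - z ^ N‖ := by ring
  · have hq := phie_q hN hz
    have hne := phie_ne hq
    have h0 := norm_nonneg z
    have he : Phi d N a γ z - pol d a z =
        (rev d N a z + z ^ N * pol d a z - 2 * γ * z ^ N) / (1 - z ^ N) := by
      unfold Phi
      field_simp
      ring
    have h3 : ‖z ^ N‖ ≤ β := by
      rw [norm_pow]
      exact (pow_le_pow_of_le_one h0 hz.le (by omega)).trans hβ
    have hβ0 : 0 ≤ β := (norm_nonneg _).trans h3
    have h4 := phie_den (q := z ^ N)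
    have h5 : ‖rev d N a z‖ ≤ B * β :=
      (phie_rev hB hz.le).trans (mul_le_mul_of_nonneg_left hβ hB0)
    have h6 : ‖z ^ N * pol d a z‖ ≤ β * B := by
      rw [norm_mul]
      exact mul_le_mul h3 (phie_pol hB hz.le) (norm_nonneg _) hβ0
    have h7 : ‖2 * (γ : ℂ) * z ^ N‖ ≤ 2 * γ * β := by
      rw [norm_mul, norm_mul, Complex.norm_real, Real.norm_eq_abs, abs_of_nonneg hγ,
        Complex.norm_ofNat]
      exact mul_le_mul_of_nonneg_left h3 (by positivity)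
    have h8 : ‖rev d N a z + z ^ N * pol d a z - 2 * γ * z ^ N‖ ≤ 2 * (B + γ) * β := by
      have a1 := norm_sub_le (rev d N a z + z ^ N * pol d a z) (2 * γ * z ^ N)
      have a2 := norm_add_le (rev d N a z) (z ^ N * pol d a z)
      linarith
    rw [he, norm_div, div_le_iff₀ (norm_pos_iff.2 hne)]
    have h9 : 0 ≤ 4 * (B + γ) * β := by positivity
    have h10 : 1 / 2 ≤ ‖1 - z ^ N‖ := by linarith
    have h11 := mul_le_mul_of_nonneg_left h10 h9
    linarith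

end Pool.Agent.Work.MP_6ac3f6_an.Lo
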