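import Pool.Agent.Work.MP_6ac3f6_an.Lo.Defs

/-!
One stage of the construction, from the analytic core and the numerical parameters.
-/

set_option autoImplicit false

namespace Pool.Agent.Work.MP_6ac3f6_an.Lo

open Metric Filter Topology Set

theorem stage_pol_diff (d : ℕ) (a : ℕ → ℂ) : Differentiable ℂ (pol d a) := by
  unfold pol
  fun_prop

theorem stage_pol_scale (d : ℕ) (a : ℕ → ℂ) {ρ : ℝ} (h0 : 0 ≤ ρ) (h1 : ρ ≤ 1) {z : ℂ}
    (hz : ‖z‖ ≤ 1) :
    ‖pol d a (ρ * z) - pol d a z‖ ≤ d * (∑ j ∈ Finset.range d, ‖a j‖) * (1 - ρ) := by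
  unfold pol
  rw [← Finset.sum_sub_distrib, Finset.mul_sum, Finset.sum_mul]
  refine (norm_sum_le _ _).trans (Finset.sum_le_sum fun j hj => ?_)
  have e : a j * ((ρ : ℂ) * z) ^ j - a j * z ^ j = a j * z ^ j * (((ρ ^ j - 1 : ℝ)) : ℂ) := by
    push_cast
    ring
  have hj' : (j : ℝ) ≤ d := by exact_mod_cast (Finset.mem_range.1 hj).le
  have b1 : 1 + (j : ℝ) * (ρ - 1) ≤ (1 + (ρ - 1)) ^ j := one_add_mul_le_pow (by linarith) j
  have b2 : ρ ^ j ≤ 1 := pow_le_one₀ h0 h1
  have b3 : |ρ ^ j - 1| ≤ d * (1 - ρ) := by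
    rw [abs_sub_comm, abs_of_nonneg (by linarith)]
    have : 1 + (ρ - 1) = ρ := by ring
    rw [this] at b1
    nlinarith
  have b4 : ‖z‖ ^ j ≤ 1 := pow_le_one₀ (norm_nonneg _) hz
  rw [e, norm_mul, norm_mul, norm_pow, Complex.norm_real, Real.norm_eq_abs]
  calc ‖a j‖ * ‖z‖ ^ j * |ρ ^ j - 1| ≤ ‖a j‖ * 1 * (d * (1 - ρ)) := by gcongr
    _ = d * ‖a j‖ * (1 - ρ) := by ring

theorem stage_log {ρ : ℝ} (h0 : 1 / 2 ≤ ρ) (h1 : ρ ≤ 1) : |Real.log ρ| ≤ 2 * (1 - ρ) := by
  have hp : 0 < ρ := by linarith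
  have a1 := Real.one_sub_inv_le_log_of_pos hp
  have a2 : Real.log ρ ≤ 0 := Real.log_nonpos hp.le h1
  have a3 : ρ⁻¹ ≤ 1 + 2 * (1 - ρ) := by
    rw [inv_le_iff_one_le_mul₀ hp]
    nlinarith
  rw [abs_of_nonpos a2]
  linarith

theorem stage_prim (P : ℂ → ℂ) (hP : Differentiable ℂ P) :
    ∃ h : ℂ → ℂ, (∀ z ∈ ball (0 : ℂ) 2, HasDerivAt h (Complex.exp (P z)) z) ∧ h 0 = 0 := by
  have hd : DifferentiableOn ℂ (fun z => Complex.exp (P z)) (ball 0 2) :=
    (hP.cexp).differentiableOn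
  obtain ⟨g, hg⟩ := hd.isExactOn_ball
  exact ⟨fun z => g z - g 0, fun z hz => (hg z hz).sub_const _, sub_self _⟩

theorem stage_phi {ε : ℝ} (h0 : 0 < ε) (h1 : ε ≤ 1) :
    ∃ φ : ℝ, 0 < φ ∧ φ < 1 ∧ 2 * Real.log 2 / Real.log (2 / φ) ≤ ε / 4 := by
  have h8 : 8 ≤ 8 / ε := by
    rw [le_div_iff₀ h0]
    linarith
  refine ⟨2 * Real.exp (-(8 / ε)), by positivity, ?_, ?_⟩
  · have := Real.add_one_le_exp (8 / ε)
    rw [Real.exp_neg, ← div_eq_mul_inv, div_lt_one (Real.exp_pos _)]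
    linarith
  · have e : 2 / (2 * Real.exp (-(8 / ε))) = Real.exp (8 / ε) := by
      rw [Real.exp_neg]
      field_simp
    have l2 : Real.log 2 ≤ 1 := by
      have := Real.log_le_sub_one_of_pos (show (0 : ℝ) < 2 by norm_num)
      linarith
    rw [e, Real.log_exp, div_le_iff₀ (by linarith)]
    have : ε / 4 * (8 / ε) = 2 := by
      field_simp
      norm_num
    rw [this]
    linarith

theorem stage (_h0 : StmtRad0) (hA : StmtPA) (hM : StmtMean) (hN : StmtNum) (hC : StmtCore) :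
    StmtStage := by
  intro d a ε e0 e1
  obtain ⟨φ, p0, p1, p2⟩ := stage_phi e0 e1
  obtain ⟨B, hB⟩ : ∃ B : ℝ, B = ∑ j ∈ Finset.range d, ‖a j‖ := ⟨_, rfl⟩
  have B0 : 0 ≤ B := hB ▸ Finset.sum_nonneg fun j _ => norm_nonneg _
  obtain ⟨σ, s0, s1, s2⟩ : ∃ σ : ℝ, 0 < σ ∧ σ ≤ ε / 4 ∧ 3 * σ / φ ^ 2 ≤ ε / 4 := by
    refine ⟨min (ε / 4) (ε * φ ^ 2 / 12), lt_min (by positivity) (by positivity),
      min_le_left _ _, ?_⟩
    rw [div_le_iff₀ (by positivity)]
    have := min_le_right (ε / 4) (ε * φ ^ 2 / 12)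
    linarith
  obtain ⟨θ, t0, t1, t2⟩ : ∃ θ : ℝ, 0 < θ ∧ θ ≤ ε / 8 ∧ (2 + d * B) * θ ≤ ε / 4 := by
    have hd : 0 ≤ (d : ℝ) * B := by positivity
    refine ⟨ε / (4 * (2 + d * B)), by positivity, ?_, ?_⟩
    · exact div_le_div_of_nonneg_left e0.le (by norm_num) (by linarith)
    · apply le_of_eq
      field_simp
  obtain ⟨N, γ, s, δ, hP, n1, n2, n3, n4⟩ :=
    hN B d σ φ θ B0 s0 (by linarith) p0 p1 t0 (by linarith)
  obtain ⟨K, H, w, k1, k2, k3, k4, k5, k6, k7, k8, k9⟩ :=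
    hC d N a B γ s δ σ φ hB.ge s0 (by linarith) p0 hP
  obtain ⟨A, hAA⟩ : ∃ A : ℝ, A = Ht N γ σ := ⟨_, rfl⟩
  rw [← hAA] at n2 n3 n4 k7 k9
  have N1 : (1 : ℝ) ≤ N := by exact_mod_cast hP.hN
  have hs := hP.hs
  have hs' := hP.hs'
  obtain ⟨x, hx⟩ : ∃ x : ℝ, x = s / N := ⟨_, rfl⟩
  have x0 : 0 < x := by rw [hx]; positivity
  have x1 : x ≤ 1 / 8 := by
    rw [hx, div_le_iff₀ (by linarith)]
    linarith
  have x2 : 2 * x ≤ δ := by
    refine le_trans ?_ hP.hδ
    rw [hx, le_div_iff₀ (by linarith)]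
    have : 2 * (s / N) * (2 * N) = 4 * s := by
      field_simp
      norm_num
    rw [this]
    linarith
  have x3 : 3 * s / N = 3 * x := by rw [hx]; ring
  have x4 : Real.log (N / s) = -Real.log x := by
    rw [hx, ← Real.log_inv, inv_div]
  rw [x4] at n4
  rw [x3] at k9
  rw [← hx] at k1 k2 k4 k5 k7 k9
  have A0 : 0 ≤ A := by
    by_contra h
    have : θ * A < 0 := mul_neg_of_pos_of_neg t0 (not_le.1 h)
    linarith
  obtain ⟨ρ, hρ⟩ : ∃ ρ : ℝ, ρ = 1 - 2 * x := ⟨_, rfl⟩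
  have r0 : 0 < ρ := by linarith
  have r1 : ρ < 1 := by linarith
  have nr : ∀ z : ℂ, ‖(ρ : ℂ) * z‖ = ρ * ‖z‖ := fun z => by
    rw [norm_mul, Complex.norm_real, Real.norm_eq_abs, abs_of_pos r0]
  have mem : ∀ z : ℂ, ‖z‖ ≤ 1 → (ρ : ℂ) * z ∈ ball (0 : ℂ) (1 - x) := fun z hz => by
    rw [mem_ball_zero_iff, nr]
    have := mul_le_of_le_one_right r0.le hz
    linarith only [this, hρ, x0]
  have R1 : 1 < (1 - x) / ρ := by
    rw [lt_div_iff₀ r0]
    linarith
  obtain ⟨g, hg⟩ : ∃ g : ℂ → ℂ, g = fun z => K (ρ * z) + (Real.log ρ : ℂ) := ⟨_, rfl⟩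
  have gd : DifferentiableOn ℂ g (ball 0 ((1 - x) / ρ)) := by
    rw [hg]
    refine DifferentiableOn.add_const _ (k1.comp (by fun_prop) fun z hz => ?_)
    rw [mem_ball_zero_iff] at hz ⊢
    rw [nr, mul_comm]
    exact (lt_div_iff₀ r0).1 hz
  obtain ⟨M, hMb⟩ : ∃ M : ℝ, ∀ z ∈ closedBall (0 : ℂ) 1, ‖Complex.exp (g z)‖ ≤ M :=
    (isCompact_closedBall 0 1).exists_bound_of_continuousOn
      ((gd.continuousOn.mono (closedBall_subset_ball R1)).cexp)
  have M0 : 0 ≤ M := (norm_nonneg _).trans (hMb 0 (by simp))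
  obtain ⟨η, y0, y1, y2⟩ : ∃ η : ℝ, 0 < η ∧ η ≤ ε / 4 ∧ M * (2 * η) ≤ 1 := by
    refine ⟨min (ε / 4) (1 / (2 * M + 2)), lt_min (by positivity) (by positivity),
      min_le_left _ _, ?_⟩
    have h := min_le_right (ε / 4) (1 / (2 * M + 2))
    have h' : 0 < min (ε / 4) (1 / (2 * M + 2)) := lt_min (by positivity) (by positivity)
    rw [le_div_iff₀ (by positivity)] at h
    linarith only [h, h']
  obtain ⟨d', a', ha'⟩ := hA g _ η R1 y0 gd
  obtain ⟨h, hh, hz0⟩ := stage_prim _ (stage_pol_diff d' a')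
  have close : ∀ z : ℂ, ‖z‖ ≤ 1 → ‖h z - H (ρ * z)‖ ≤ 1 := by
    intro z hz
    have key := Convex.norm_image_sub_le_of_norm_hasDerivWithin_le
      (f := fun u : ℂ => h u - H (ρ * u))
      (f' := fun u : ℂ => Complex.exp (pol d' a' u) - Complex.exp (g u)) (C := 1)
      (s := closedBall (0 : ℂ) 1) (x := 0) (y := z) (fun u hu => ?_) (fun u hu => ?_)
      (convex_closedBall 0 1) (by simp) (mem_closedBall_zero_iff.2 hz)
    · simp only [mul_zero, hz0, k3, sub_zero, one_mul] at key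
      exact key.trans hz
    · have hu' := mem_closedBall_zero_iff.1 hu
      have d1 := hh u (mem_ball_zero_iff.2 (by linarith))
      have d2 : HasDerivAt (fun v : ℂ => H (ρ * v)) (Complex.exp (K (ρ * u)) * ρ) u := by
        have := (k2 _ (mem u hu')).comp u ((hasDerivAt_id u).const_mul (ρ : ℂ))
        simpa [Function.comp_def] using this
      have e : Complex.exp (g u) = Complex.exp (K (ρ * u)) * ρ := by
        rw [hg]
        simp only []
        rw [Complex.exp_add, ← Complex.ofReal_exp, Real.exp_log r0]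
      rw [e]
      exact (d1.sub d2).hasDerivWithinAt
    · have hu' := mem_closedBall_zero_iff.1 hu
      have c1 : ‖pol d' a' u - g u‖ ≤ η := by
        rw [norm_sub_rev]
        exact ha' u hu'
      have e : Complex.exp (pol d' a' u) - Complex.exp (g u) =
          Complex.exp (g u) * (Complex.exp (pol d' a' u - g u) - 1) := by
        rw [mul_sub, ← Complex.exp_add, mul_one, add_sub_cancel]
      have c2 := Complex.norm_exp_sub_one_le (x := pol d' a' u - g u) (by linarith)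
      rw [e, norm_mul]
      calc _ ≤ M * (2 * η) :=
            mul_le_mul (hMb u hu) (by linarith) (norm_nonneg _) M0
        _ ≤ 1 := y2
  have closeRe : ∀ z : ℂ, ‖z‖ ≤ 1 → |(h z).re - (H (ρ * z)).re| ≤ 1 := fun z hz => by
    rw [← Complex.sub_re]
    exact (Complex.abs_re_le_norm _).trans (close z hz)
  refine ⟨d', a', h, δ, 1 - x, hh, hz0, by linarith, by linarith, by linarith, by linarith,
    by linarith, fun z hz => ?_, fun z hz => ?_, ?_⟩
  · have hz1 : ‖z‖ ≤ 1 := by linarith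
    have c1 := ha' z hz1
    have c2 := k8 (ρ * z) (by
      rw [nr]
      exact (mul_le_of_le_one_left (norm_nonneg z) r1.le).trans hz)
    have c3 := stage_pol_scale d a r0.le r1.le hz1
    have c4 := stage_log (ρ := ρ) (by linarith) r1.le
    rw [← hB] at c3
    have e : pol d' a' z - pol d a z = -(g z - pol d' a' z) + (K (ρ * z) - pol d a (ρ * z)) +
        (pol d a (ρ * z) - pol d a z) + (Real.log ρ : ℂ) := by
      rw [hg]
      ring
    have c5 : (2 + d * B) * (1 - ρ) ≤ (2 + d * B) * θ :=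
      mul_le_mul_of_nonneg_left (by linarith) (by positivity)
    rw [e]
    refine (norm_add_le _ _).trans ?_
    have c6 := norm_add₃_le (a := -(g z - pol d' a' z)) (b := K (ρ * z) - pol d a (ρ * z))
      (c := pol d a (ρ * z) - pol d a z)
    rw [norm_neg] at c6
    rw [Complex.norm_real, Real.norm_eq_abs]
    linarith only [c1, c2, c3, c4, c5, c6, t2, s1, y1, e0]
  · have c1 := abs_le.1 (closeRe z hz)
    have c2 := k7 _ (mem z hz)
    have c3 : Real.exp (h z).re ≤ Real.exp (A + 1) := Real.exp_le_exp.2 (by linarith)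
    have c4 : Real.exp (h z).re * δ ≤ Real.exp (A + 1) * δ :=
      mul_le_mul_of_nonneg_right c3 (by linarith)
    linarith
  · have hN0 : N ≠ 0 := by
      have := hP.hN
      omega
    have mean := hM (fun z => w (ρ * z)) (fun z => ((ρ : ℂ) * z) ^ N)
      (fun z => max (h z).re 0) 1 (1 - x) A (3 * σ / φ ^ 2 + θ) φ (by linarith) (by linarith)
      p0 p1 A0 (by positivity)
      (k4.comp (by fun_prop) fun z hz => mem z (mem_ball_zero_iff.1 hz).le)
      (by fun_prop) (fun z hz => k5 _ (mem z (mem_ball_zero_iff.1 hz).le))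
      (fun z hz => by
        have := mem_ball_zero_iff.1 (mem z (mem_ball_zero_iff.1 hz).le)
        rw [norm_pow]
        exact pow_lt_one₀ (norm_nonneg _) (by linarith) hN0)
      (by simpa using k6) (by simp [hN0])
      (fun z hz => by
        have hz' : ‖z‖ = 1 - x := mem_sphere_zero_iff_norm.1 hz
        have c := (hh z (mem_ball_zero_iff.2 (by linarith))).continuousAt
        have c' : ContinuousAt (fun z => max (h z).re 0) z :=
          Tendsto.max (Complex.continuous_re.continuousAt.comp c) continuousAt_const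
        exact c'.continuousWithinAt)
      (fun z _ => le_max_right _ _)
      (fun z hz q1 q2 => by
        have hz1 : ‖z‖ ≤ 1 := by linarith
        have c1 := abs_le.1 (closeRe z hz1)
        have c2 := k9 _ (mem z hz1) (by
          rw [nr, hz, hρ]
          linarith only [mul_pos x0 x0]) q1 q2
        refine le_trans ?_ (le_max_left _ _)
        linarith only [c1.1, c2, n2])
    refine le_trans ?_ mean
    have L0 : 0 ≤ -Real.log x := by
      have := Real.log_nonpos x0.le (by linarith)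
      linarith
    have e : 1 - (1 - x) = x := by ring
    rw [e]
    have c1 : A * (1 - 5 * ε / 8) ≤
        A * (1 - (3 * σ / φ ^ 2 + θ) - 2 * Real.log 2 / Real.log (2 / φ)) :=
      mul_le_mul_of_nonneg_left (by linarith) A0
    have c2 : (1 - θ) * -Real.log x * (1 - 5 * ε / 8) ≤ A * (1 - 5 * ε / 8) :=
      mul_le_mul_of_nonneg_right n4 (by linarith)
    have c3 : (1 - ε) * -Real.log x ≤ (1 - θ) * (1 - 5 * ε / 8) * -Real.log x :=
      mul_le_mul_of_nonneg_right (by linarith only [mul_pos t0 e0, t1, e0]) L0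
    linarith only [c1, c2, c3]

end Pool.Agent.Work.MP_6ac3f6_an.Lo
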