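import Pool.Agent.Work.MP_6ac3f6_an.Lo.Defs

/-!
One stage for the whole state.
-/

set_option autoImplicit false

namespace Pool.Agent.Work.MP_6ac3f6_an.Lo

open Metric Filter Topology Set

theorem stc_polar (z : ℂ) : ∃ ζ : ℂ, ‖ζ‖ = 1 ∧ z = (‖z‖ : ℝ) * ζ :=
  ⟨Complex.exp (Complex.arg z * Complex.I), Complex.norm_exp_ofReal_mul_I _,
    (Complex.norm_mul_exp_arg_mul_I z).symm⟩

theorem stc_norm {ζ : ℂ} (h : ‖ζ‖ = 1) {t : ℝ} (ht : 0 ≤ t) : ‖(t : ℂ) * ζ‖ = t := by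
  rw [norm_mul, h, mul_one, Complex.norm_real, Real.norm_of_nonneg ht]

theorem stc_exp {u v : ℂ} {M e : ℝ} (hM : ‖Complex.exp v‖ ≤ M) (h : ‖u - v‖ ≤ e) (he : e ≤ 1) :
    ‖Complex.exp u - Complex.exp v‖ ≤ M * (2 * e) := by
  have e1 : Complex.exp u - Complex.exp v = Complex.exp v * (Complex.exp (u - v) - 1) := by
    rw [mul_sub, ← Complex.exp_add]; simp
  rw [e1, norm_mul]
  exact mul_le_mul hM ((Complex.norm_exp_sub_one_le (h.trans he)).trans (by linarith))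
    (norm_nonneg _) ((norm_nonneg _).trans hM)

theorem stc_bound {g : ℂ → ℂ} (hg : ContinuousOn g (ball 0 2)) :
    ∃ M : ℝ, 1 ≤ M ∧ ∀ z : ℂ, ‖z‖ ≤ 1 → ‖Complex.exp (g z)‖ ≤ M := by
  obtain ⟨M, hM⟩ := (isCompact_closedBall (0 : ℂ) 1).exists_bound_of_continuousOn
    (f := fun z => Complex.exp (g z))
    (Complex.continuous_exp.comp_continuousOn (hg.mono (closedBall_subset_ball (by norm_num))))
  exact ⟨max 1 M, le_max_left _ _,
    fun z hz => (hM z (mem_closedBall_zero_iff.2 hz)).trans (le_max_right _ _)⟩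

theorem stage2c (h0 : StmtRad0) (hS : StmtStage) : StmtStage2 := by
  refine ⟨⟨⟨fun _ => 0, fun z => z, fun z => Complex.exp z - 1,
    ⟨0, fun _ => 0, by funext z; simp [pol]⟩, fun z _ => by simpa using hasDerivAt_id' z, rfl,
    fun z _ => (Complex.hasDerivAt_exp z).sub_const 1, by simp⟩⟩, fun u ε hε hε1 => ?_⟩
  obtain ⟨d, a, hP⟩ := u.isPol
  obtain ⟨M₁, M1, hM₁⟩ := stc_bound (g := u.P) (by
    rw [hP]; unfold pol; fun_prop)
  obtain ⟨M₂, M2, hM₂⟩ := stc_bound (g := u.h)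
    fun z hz => (u.hh z hz).continuousAt.continuousWithinAt
  set e : ℝ := ε / (8 * M₁ * M₂) with he
  have M12 : 1 ≤ M₁ * M₂ := one_le_mul_of_one_le_of_one_le M1 M2
  have e0 : 0 < e := by positivity
  have e1 : 8 * (M₁ * M₂ * e) = ε := by rw [he]; field_simp
  have e2 : e ≤ M₁ * M₂ * e := by nlinarith
  have e3 : M₁ * e ≤ M₁ * M₂ * e := by nlinarith [mul_pos (by linarith : 0 < M₁) e0]
  have e4 : M₂ * e ≤ M₁ * M₂ * e := by nlinarith [mul_pos (by linarith : 0 < M₂) e0]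
  obtain ⟨d', a', h', δ, r, hh', h0', δ0, δe, r0, r1, rδ, hcl, hup, hmean⟩ :=
    hS d a e e0 (by linarith)
  obtain ⟨y₁, hy₁⟩ := DifferentiableOn.isExactOn_ball (c := (0 : ℂ)) (r := 2)
    (f := fun z => Complex.exp (h' z))
    (fun z hz => (hh' z hz).differentiableAt.cexp.differentiableWithinAt)
  have mem : ∀ (ζ : ℂ) (t : ℝ), ‖ζ‖ = 1 → 0 ≤ t → t ≤ 1 → (t : ℂ) * ζ ∈ ball (0 : ℂ) 2 :=
    fun ζ t hζ ht ht1 => by rw [mem_ball_zero_iff, stc_norm hζ ht]; linarith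
  have δ1 : 0 ≤ 1 - δ := by linarith
  have hd : ∀ z : ℂ, ‖z‖ ≤ 1 - δ → ‖h' z - u.h z‖ ≤ 2 * (M₁ * e) := by
    intro z hz
    obtain ⟨ζ, hζ, ez⟩ := stc_polar z
    have key := h0 (fun w => h' w - u.h w)
      (fun w => Complex.exp (pol d' a' w) - Complex.exp (u.P w)) ζ 0 ‖z‖ (M₁ * (2 * e)) hζ
      (norm_nonneg z)
      (fun t ht => (hh' _ (mem ζ t hζ ht.1 (by linarith [ht.2]))).sub
        (u.hh _ (mem ζ t hζ ht.1 (by linarith [ht.2]))))
      (fun t ht => stc_exp (hM₁ _ (by rw [stc_norm hζ ht.1]; linarith [ht.2]))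
        (by rw [hP]; exact hcl _ (by rw [stc_norm hζ ht.1]; linarith [ht.2])) (by linarith))
    simp only [Complex.ofReal_zero, zero_mul, h0', u.h0, sub_zero] at key
    rw [← ez] at key
    have : 0 ≤ M₁ * (2 * e) := by positivity
    nlinarith
  have yd : ∀ (ζ : ℂ) (t : ℝ), ‖ζ‖ = 1 → 0 ≤ t → t ≤ 1 → HasDerivAt
      (fun w => y₁ w - y₁ 0 - u.y w) (Complex.exp (h' (t * ζ)) - Complex.exp (u.h (t * ζ)))
      (t * ζ) := fun ζ t hζ ht ht1 =>
    ((hy₁ _ (mem ζ t hζ ht ht1)).sub_const _).sub (u.hy _ (mem ζ t hζ ht ht1))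
  have y1 : ∀ (ζ : ℂ) (t : ℝ), ‖ζ‖ = 1 → 0 ≤ t → t ≤ 1 - δ →
      ‖y₁ (t * ζ) - y₁ 0 - u.y (t * ζ)‖ ≤ 4 * (M₁ * M₂ * e) := by
    intro ζ t hζ ht ht1
    have key := h0 (fun w => y₁ w - y₁ 0 - u.y w)
      (fun w => Complex.exp (h' w) - Complex.exp (u.h w)) ζ 0 t (M₂ * (2 * (2 * (M₁ * e)))) hζ ht
      (fun x hx => yd ζ x hζ hx.1 (by linarith [hx.2]))
      (fun x hx => stc_exp (hM₂ _ (by rw [stc_norm hζ hx.1]; linarith [hx.2]))
        (hd _ (by rw [stc_norm hζ hx.1]; linarith [hx.2])) (by linarith))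
    simp only [Complex.ofReal_zero, zero_mul, u.y0, sub_zero, sub_self] at key
    have h2 : M₂ * (2 * (2 * (M₁ * e))) = 4 * (M₁ * M₂ * e) := by ring
    rw [h2] at key
    nlinarith
  refine ⟨⟨pol d' a', h', fun w => y₁ w - y₁ 0, ⟨d', a', rfl⟩, hh', h0',
    fun z hz => (hy₁ z hz).sub_const _, by simp⟩, δ, r, δ0, by linarith, r0, r1, rδ,
    fun z hz => ⟨?_, ?_⟩, fun z hz => ?_, le_trans ?_ hmean⟩
  · have := hcl z hz
    rw [← hP] at this
    show ‖pol d' a' z - u.P z‖ ≤ ε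
    linarith
  · have := hd z hz
    show ‖h' z - u.h z‖ ≤ ε
    linarith
  · show ‖y₁ z - y₁ 0 - u.y z‖ ≤ ε
    obtain ⟨ζ, hζ, ez⟩ := stc_polar z
    rcases le_total ‖z‖ (1 - δ) with h | h
    · have := y1 ζ _ hζ (norm_nonneg z) h
      rw [← ez] at this
      linarith
    have key := h0 (fun w => y₁ w - y₁ 0 - u.y w)
      (fun w => Complex.exp (h' w) - Complex.exp (u.h w)) ζ (1 - δ) ‖z‖ (e / δ + M₂) hζ h
      (fun x hx => yd ζ x hζ (δ1.trans hx.1) (hx.2.trans hz))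
      (fun x hx => by
        have hn : ‖(x : ℂ) * ζ‖ ≤ 1 := by rw [stc_norm hζ (δ1.trans hx.1)]; exact hx.2.trans hz
        refine (norm_sub_le _ _).trans (add_le_add ?_ (hM₂ _ hn))
        rw [Complex.norm_exp, le_div_iff₀ δ0]
        exact hup _ hn)
    rw [← ez] at key
    have h2 := y1 ζ _ hζ δ1 le_rfl
    have h3 : (e / δ + M₂) * (‖z‖ - (1 - δ)) ≤ (e / δ + M₂) * δ :=
      mul_le_mul_of_nonneg_left (by linarith) (by positivity)
    have h4 : (e / δ + M₂) * δ = e + M₂ * δ := by field_simp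
    have h5 : M₂ * δ ≤ M₂ * e := mul_le_mul_of_nonneg_left δe (by linarith)
    have h6 := norm_sub_norm_le (y₁ z - y₁ 0 - u.y z)
      (y₁ (((1 - δ : ℝ) : ℂ) * ζ) - y₁ 0 - u.y (((1 - δ : ℝ) : ℂ) * ζ))
    linarith
  · have : 0 ≤ -Real.log (1 - r) := by
      linarith [Real.log_nonpos (show 0 ≤ 1 - r by linarith) (by linarith)]
    exact mul_le_mul_of_nonneg_right (by linarith) this

end Pool.Agent.Work.MP_6ac3f6_an.Lo
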