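import Pool.Agent.Work.MP_6ac3f6_an.Lo.Defs

/-!
The size of the primitive.
-/

set_option autoImplicit false

namespace Pool.Agent.Work.MP_6ac3f6_an.Lo

open Metric Filter Topology Set

theorem u_polar (z : ℂ) : ∃ ζ : ℂ, ‖ζ‖ = 1 ∧ z = (‖z‖ : ℝ) * ζ :=
  ⟨Complex.exp (Complex.arg z * Complex.I), Complex.norm_exp_ofReal_mul_I _,
    (Complex.norm_mul_exp_arg_mul_I z).symm⟩

theorem u_norm {ζ : ℂ} (h : ‖ζ‖ = 1) {t : ℝ} (ht : 0 ≤ t) : ‖(t : ℂ) * ζ‖ = t := by
  rw [norm_mul, h, mul_one, Complex.norm_real, Real.norm_of_nonneg ht]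

theorem u_sub (w : ℂ) : 1 - ‖w‖ ≤ ‖1 - w‖ := by
  have := norm_sub_norm_le (1 : ℂ) w
  rwa [norm_one] at this

theorem u_Po_ge {w : ℂ} (hw : ‖w‖ < 1) : (1 - ‖w‖) / (1 + ‖w‖) ≤ Po w := by
  have h0 := norm_nonneg w
  have h1 : 0 < ‖1 - w‖ := lt_of_lt_of_le (by linarith) (u_sub w)
  have h2 : ‖1 - w‖ ≤ 1 + ‖w‖ := by
    have := norm_sub_le (1 : ℂ) w
    rwa [norm_one] at this
  unfold Po
  rw [div_le_div_iff₀ (by linarith) (by positivity)]
  have h3 : ‖1 - w‖ ^ 2 ≤ (1 + ‖w‖) ^ 2 := by gcongr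
  have h4 : 0 ≤ 1 - ‖w‖ := by linarith
  calc (1 - ‖w‖) * ‖1 - w‖ ^ 2 ≤ (1 - ‖w‖) * (1 + ‖w‖) ^ 2 := by gcongr
    _ = (1 - ‖w‖ ^ 2) * (1 + ‖w‖) := by ring

theorem u_pow_le {t c : ℝ} (h0 : 0 ≤ t) (h : t ≤ 1 - c) (n : ℕ) : t ^ n ≤ Real.exp (-(c * n)) := by
  have h1 : t ≤ Real.exp (-c) := by linarith [Real.add_one_le_exp (-c)]
  calc t ^ n ≤ Real.exp (-c) ^ n := by gcongr
    _ = Real.exp (-(c * n)) := by rw [← Real.exp_nat_mul]; congr 1; ring

theorem u_bern {t : ℝ} (h0 : 0 ≤ t) (n : ℕ) : 1 - n * (1 - t) ≤ t ^ n := by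
  have := one_add_mul_le_pow (a := t - 1) (by linarith) n
  have e : 1 + (t - 1) = t := by ring
  rw [e] at this
  linarith

theorem u_gap {t : ℝ} (h0 : 0 ≤ t) (h1 : t ≤ 1) (n : ℕ) : n * (1 - t) * t ^ n ≤ 1 - t ^ n := by
  induction n with
  | zero => simp
  | succ n ih =>
    have h2 : t ^ (n + 1) ≤ t ^ n := pow_le_pow_of_le_one h0 h1 (Nat.le_succ n)
    have h3 : 0 ≤ (n : ℝ) * (1 - t) := mul_nonneg (Nat.cast_nonneg n) (by linarith)
    have h4 : (n : ℝ) * (1 - t) * t ^ (n + 1) ≤ n * (1 - t) * t ^ n :=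
      mul_le_mul_of_nonneg_left h2 h3
    have h5 : (1 - t) * t ^ (n + 1) ≤ (1 - t) * t ^ n :=
      mul_le_mul_of_nonneg_left h2 (by linarith)
    have h6 : (1 - t) * t ^ n = t ^ n - t ^ (n + 1) := by ring
    push_cast
    nlinarith

theorem u_normW (d N : ℕ) (a : ℕ → ℂ) {γ : ℝ} (hγ : 0 < γ) (z : ℂ) :
    ‖Wf d N a γ z‖ = Sc N γ * (Real.exp ((Phi d N a γ z).re - γ) * (‖z‖ / ‖z‖ ^ N)) := by
  unfold Wf Sc
  rw [norm_div, norm_mul, norm_neg, Complex.norm_exp, norm_mul, norm_mul, norm_mul, norm_pow,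
    Complex.norm_real, Real.norm_of_nonneg hγ.le, Complex.norm_natCast, Real.exp_sub]
  have : ‖(2 : ℂ)‖ = 2 := by simp
  rw [this]
  have := Real.exp_pos γ
  field_simp

theorem uu (h0 : StmtRad0) (h1 : StmtRad) (hP : StmtPhi) (hW : StmtW) : StmtU := by
  intro d N a B γ s δ σ φ hB hσ hσ1 hφ p U hU U0
  have B0 : 0 ≤ B := le_trans (Finset.sum_nonneg fun _ _ => norm_nonneg _) hB
  have hγ4 : 4 ≤ γ := by linarith [p.hγ]
  have hγ0 : 0 < γ := by linarith
  have hN1 : (1 : ℝ) ≤ N := by exact_mod_cast p.hN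
  have hN0 : (0 : ℝ) < N := by linarith
  obtain ⟨-, hPB, hRe, hcl⟩ := hP d N a γ B hB p.hd p.hN hγ0.le
  have hδ0 : 0 < δ := lt_of_lt_of_le (by positivity) p.hδ
  have hS0 : 0 < Sc N γ := by unfold Sc; positivity
  have he := p.he
  set G : ℂ → ℂ := fun z => Complex.exp (Phi d N a γ z) / (1 - z ^ N) ^ 2 with hG
  have nG : ∀ z, ‖G z‖ = Real.exp (Phi d N a γ z).re / ‖1 - z ^ N‖ ^ 2 := fun z => by
    simp only [hG, norm_div, norm_pow, Complex.norm_exp]
  have hUG : ∀ (ζ : ℂ) (t : ℝ), ‖ζ‖ = 1 → 0 ≤ t → t < 1 → HasDerivAt U (G (t * ζ)) (t * ζ) :=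
    fun ζ t hζ ht ht1 => hU _ (by rw [mem_ball_zero_iff, u_norm hζ ht]; exact ht1)
  have reP : ∀ z : ℂ, ‖z‖ ≤ 1 → |(pol d a z).re| ≤ B := fun z hz =>
    (Complex.abs_re_le_norm _).trans (hPB z hz)
  have qlt : ∀ z : ℂ, ‖z‖ < 1 → ‖z ^ N‖ < 1 := fun z hz => by
    rw [norm_pow]; exact pow_lt_one₀ (norm_nonneg _) hz (by have := p.hN; omega)
  have Po0 : ∀ z : ℂ, ‖z‖ < 1 → 0 ≤ Po (z ^ N) := fun z hz =>
    le_trans (div_nonneg (by linarith [qlt z hz]) (by positivity)) (u_Po_ge (qlt z hz))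
  have up : ∀ z : ℂ, ‖z‖ < 1 → (Phi d N a γ z).re ≤ γ - (γ - B) * Po (z ^ N) + σ / 8 := by
    intro z hz
    have h2 := (abs_le.1 (hRe z hz)).2
    have h3 := (abs_le.1 (reP z hz.le)).2
    have h4 := mul_le_mul_of_nonneg_right (show γ - B ≤ γ - (pol d a z).re by linarith) (Po0 z hz)
    linarith
  have lo : ∀ z : ℂ, ‖z‖ < 1 → γ - 2 * γ * Po (z ^ N) - σ / 8 ≤ (Phi d N a γ z).re := by
    intro z hz
    have h2 := (abs_le.1 (hRe z hz)).1
    have h3 := (abs_le.1 (reP z hz.le)).1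
    have h4 := mul_le_mul_of_nonneg_right
      (show γ - (pol d a z).re ≤ 2 * γ by linarith [p.hγ]) (Po0 z hz)
    linarith
  -- the inner disc
  have in1 : ∀ (ζ : ℂ) (t : ℝ), ‖ζ‖ = 1 → 0 ≤ t → t ≤ 1 - δ →
      ‖U (t * ζ)‖ ≤ 4 * Real.exp (B + 1) := by
    intro ζ t hζ ht ht1
    have hβ := p.hβ
    set β := Real.exp (-(δ * N / 2)) with hβd
    have β0 : 0 < β := Real.exp_pos _
    have β1 : β ≤ 1 / 40 := by nlinarith
    have key := h0 U G ζ 0 t (4 * Real.exp (B + 1)) hζ ht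
      (fun x hx => hUG ζ x hζ hx.1 (by linarith [hx.2])) (fun x hx => by
        have hx1 : x ≤ 1 - δ := hx.2.trans ht1
        have hn := u_norm hζ hx.1
        have hlt : ‖(x : ℂ) * ζ‖ < 1 := by rw [hn]; linarith
        have hNd : (N : ℝ) / 2 ≤ ((N - d : ℕ) : ℝ) := by
          have h2 := p.hd
          have h3 : (2 * d : ℝ) ≤ N := by exact_mod_cast h2
          rw [Nat.cast_sub (by omega)]
          linarith
        have hb : ‖(x : ℂ) * ζ‖ ^ (N - d) ≤ β := by
          rw [hn]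
          refine (u_pow_le hx.1 hx1 _).trans (Real.exp_le_exp.2 ?_)
          nlinarith
        have hq : ‖((x : ℂ) * ζ) ^ N‖ ≤ β := by
          rw [norm_pow]
          exact (pow_le_pow_of_le_one (norm_nonneg _) hlt.le (Nat.sub_le N d)).trans hb
        have h2 := hcl _ β hlt hb (by linarith)
        have h3 : (Phi d N a γ (x * ζ)).re ≤ B + 1 := by
          have h4 := (abs_le.1 ((Complex.abs_re_le_norm _).trans h2)).2
          rw [Complex.sub_re] at h4
          have h5 := (abs_le.1 (reP _ hlt.le)).2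
          linarith
        have h5 : 1 / 2 ≤ ‖1 - ((x : ℂ) * ζ) ^ N‖ := by linarith [u_sub (((x : ℂ) * ζ) ^ N)]
        rw [nG]
        calc _ ≤ Real.exp (B + 1) / (1 / 2) ^ 2 := by gcongr
          _ = 4 * Real.exp (B + 1) := by ring)
    simp only [Complex.ofReal_zero, zero_mul, U0, sub_zero] at key
    have := Real.exp_pos (B + 1)
    nlinarith
  -- the middle annulus
  set t₁ : ℝ := 1 - 1 / (2 * (N : ℝ)) with ht₁
  have hc0 : 0 < 1 / (2 * (N : ℝ)) := by positivity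
  have hc1 : 1 / (2 * (N : ℝ)) ≤ 1 / 2 := p.hδ.trans p.hδ'
  have mid : ∀ z : ℂ, ‖z‖ ≤ t₁ →
      (Phi d N a γ z).re ≤ 4 * γ / 5 + B + 1 ∧ 1 / 3 ≤ ‖1 - z ^ N‖ := by
    intro z hz
    have hlt : ‖z‖ < 1 := by linarith
    have hq : ‖z ^ N‖ ≤ 2 / 3 := by
      rw [norm_pow]
      refine (u_pow_le (norm_nonneg _) hz N).trans ?_
      have e : -(1 / (2 * (N : ℝ)) * N) = -(1 / 2) := by field_simp
      rw [e, Real.exp_neg, inv_le_comm₀ (Real.exp_pos _) (by norm_num)]
      linarith [Real.add_one_le_exp (1 / 2 : ℝ)]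
    have h2 : 1 / 5 ≤ Po (z ^ N) := by
      refine le_trans ?_ (u_Po_ge (qlt z hlt))
      rw [le_div_iff₀ (by positivity)]
      linarith
    have h3 := mul_le_mul_of_nonneg_left h2 (show 0 ≤ γ - B by linarith [p.hγ])
    exact ⟨by linarith [up z hlt], by linarith [u_sub (z ^ N)]⟩
  have in2 : ∀ (ζ : ℂ) (t : ℝ), ‖ζ‖ = 1 → 0 ≤ t → t ≤ t₁ →
      ‖U (t * ζ)‖ ≤ 4 * Real.exp (B + 1) + 1 := by
    intro ζ t hζ ht ht1
    rcases le_total t (1 - δ) with h | h
    · linarith [in1 ζ t hζ ht h]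
    have hδ1 : 0 ≤ 1 - δ := by linarith [p.hδ']
    have key := h0 U G ζ (1 - δ) t (9 * Real.exp (4 * γ / 5 + B + 1)) hζ h
      (fun x hx => hUG ζ x hζ (hδ1.trans hx.1) (by linarith [hx.2])) (fun x hx => by
        obtain ⟨h2, h3⟩ := mid ((x : ℂ) * ζ) (by rw [u_norm hζ (hδ1.trans hx.1)]; linarith [hx.2])
        rw [nG]
        calc _ ≤ Real.exp (4 * γ / 5 + B + 1) / (1 / 3) ^ 2 := by gcongr
          _ = 9 * Real.exp (4 * γ / 5 + B + 1) := by ring)
    have h2 := in1 ζ (1 - δ) hζ hδ1 le_rfl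
    have h3 : 9 * Real.exp (4 * γ / 5 + B + 1) * (t - (1 - δ)) ≤
        9 * Real.exp (4 * γ / 5 + B + 1) * δ :=
      mul_le_mul_of_nonneg_left (by linarith) (by positivity)
    have h4 := norm_sub_norm_le (U (t * ζ)) (U (((1 - δ : ℝ) : ℂ) * ζ))
    linarith [p.hin]
  -- the outer annulus
  have hs := p.hs
  have hsN : 0 < s / N := by positivity
  have xge : ∀ t : ℝ, t₁ ≤ t → 1 / 2 ≤ t ^ N := by
    intro t ht
    have h2 := u_bern (t := t) (by linarith) N
    have h3 : (N : ℝ) * (1 - t) ≤ N * (1 / (2 * (N : ℝ))) :=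
      mul_le_mul_of_nonneg_left (by linarith) hN0.le
    have e : (N : ℝ) * (1 / (2 * (N : ℝ))) = 1 / 2 := by field_simp
    linarith
  have out : ∀ (ζ : ℂ) (t : ℝ), ‖ζ‖ = 1 → t₁ ≤ t → t ≤ 1 - s / N →
      ‖U (t * ζ) - Wf d N a γ (t * ζ)‖ ≤ Sc N γ * σ / 4 := by
    intro ζ t hζ ht ht2
    have t10 : 0 ≤ t₁ := by linarith
    have g0 : 0 < γ - B := by linarith [p.hγ]
    have key := h1 (fun z => U z - Wf d N a γ z) (fun z => G z - deriv (Wf d N a γ) z) ζ t₁ t
      (Sc N γ * (12 * (5 * B + 4) / (γ - B))) hζ ht (by linarith)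
      (fun x hx => by
        have hx0 : 0 ≤ x := t10.trans hx.1
        have hx1 : x < 1 := by linarith [hx.2]
        have hn := u_norm hζ hx0
        exact (hUG ζ x hζ hx0 hx1).sub (hW d N a γ B hB p.hd p.hN hγ0 _ (by rw [hn]; exact hx1)
          (by rw [hn]; exact xge x hx.1)).1.hasDerivAt)
      (fun x hx => by
        have hx0 : 0 ≤ x := t10.trans hx.1
        have hx1 : x < 1 := by linarith [hx.2]
        have hn := u_norm hζ hx0
        have hlt : ‖(x : ℂ) * ζ‖ < 1 := by rw [hn]; exact hx1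
        refine (hW d N a γ B hB p.hd p.hN hγ0 _ hlt (by rw [hn]; exact xge x hx.1)).2.trans ?_
        set q := ((x : ℂ) * ζ) ^ N with hq
        have nq : ‖q‖ = x ^ N := by rw [hq, norm_pow, hn]
        have q1 : ‖q‖ < 1 := qlt _ hlt
        have q0 := norm_nonneg q
        have h2 : 0 < ‖1 - q‖ := lt_of_lt_of_le (by linarith) (u_sub q)
        have h3 : (N : ℝ) * (1 - x) / 2 ≤ 1 - ‖q‖ ^ 2 := by
          have h4 := u_gap hx0 hx1.le N
          have h5 := mul_le_mul_of_nonneg_left (xge x hx.1)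
            (show 0 ≤ (N : ℝ) * (1 - x) from mul_nonneg hN0.le (by linarith))
          have h6 : ‖q‖ ^ 2 ≤ ‖q‖ := by nlinarith
          rw [← nq] at h4 h5
          linarith
        have h3' : 0 < (N : ℝ) * (1 - x) / 2 := by
          have : 0 < 1 - x := by linarith
          positivity
        have h4 : 1 / ‖1 - q‖ ^ 2 ≤ Po q / ((N : ℝ) * (1 - x) / 2) := by
          unfold Po
          rw [le_div_iff₀ h3', div_mul_eq_mul_div, one_mul]
          gcongr
        have h5 : Real.exp (Phi d N a γ (x * ζ)).re * Po q ≤ 3 * Real.exp γ / (γ - B) := by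
          have h6 : Real.exp (Phi d N a γ (x * ζ)).re ≤
              Real.exp γ * Real.exp 1 * Real.exp (-((γ - B) * Po q)) := by
            rw [← Real.exp_add, ← Real.exp_add]
            exact Real.exp_le_exp.2 (by linarith [up _ hlt])
          have h7 : Real.exp (-((γ - B) * Po q)) * ((γ - B) * Po q) ≤ 1 := by
            rw [Real.exp_neg, inv_mul_le_iff₀ (Real.exp_pos _)]
            linarith [Real.add_one_le_exp ((γ - B) * Po q)]
          have h8 : Real.exp 1 ≤ 3 := by linarith [Real.exp_one_lt_d9]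
          have h9 : 0 ≤ Po q := Po0 _ hlt
          rw [le_div_iff₀ g0]
          have eγ := Real.exp_pos γ
          calc _ = Real.exp (Phi d N a γ (x * ζ)).re * ((γ - B) * Po q) := by ring
            _ ≤ Real.exp γ * Real.exp 1 * Real.exp (-((γ - B) * Po q)) * ((γ - B) * Po q) := by
              gcongr
            _ = Real.exp γ * Real.exp 1 * (Real.exp (-((γ - B) * Po q)) * ((γ - B) * Po q)) := by
              ring
            _ ≤ Real.exp γ * 3 * 1 := by gcongr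
            _ = 3 * Real.exp γ := by ring
        have hx2 : 0 < 1 - x := by linarith
        calc _ = Real.exp (Phi d N a γ (x * ζ)).re * (1 / ‖1 - q‖ ^ 2) * ((5 * B + 4) / γ) := by
              ring
          _ ≤ Real.exp (Phi d N a γ (x * ζ)).re * (Po q / ((N : ℝ) * (1 - x) / 2)) *
              ((5 * B + 4) / γ) := by gcongr
          _ = Real.exp (Phi d N a γ (x * ζ)).re * Po q *
              ((5 * B + 4) / γ / ((N : ℝ) * (1 - x) / 2)) := by ring
          _ ≤ 3 * Real.exp γ / (γ - B) * ((5 * B + 4) / γ / ((N : ℝ) * (1 - x) / 2)) := by gcongr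
          _ = Sc N γ * (12 * (5 * B + 4) / (γ - B)) / (1 - x) := by
              unfold Sc
              field_simp
              ring)
    have hlog : Real.log ((1 - t₁) / (1 - t)) ≤ Real.log (1 / (2 * s)) := by
      have h2 : 0 < 1 - t := by linarith
      refine Real.log_le_log (div_pos (by linarith) h2) ?_
      calc (1 - t₁) / (1 - t) ≤ (1 - t₁) / (s / N) := by
            gcongr
            · linarith
            · linarith
        _ = 1 / (2 * s) := by rw [ht₁]; field_simp; ring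
    have h2 : Sc N γ * (12 * (5 * B + 4) / (γ - B)) * Real.log ((1 - t₁) / (1 - t)) ≤
        Sc N γ * (σ / 8) := by
      rw [mul_assoc]
      refine mul_le_mul_of_nonneg_left (le_trans ?_ p.hout) hS0.le
      exact mul_le_mul_of_nonneg_left hlog (by positivity)
    have h3 := in2 ζ t₁ hζ t10 le_rfl
    have h4 : ‖Wf d N a γ (t₁ * ζ)‖ ≤ 1 := by
      have hn := u_norm hζ t10
      obtain ⟨h5, -⟩ := mid ((t₁ : ℂ) * ζ) hn.le
      rw [u_normW d N a hγ0, hn]
      have h6 : t₁ / t₁ ^ N ≤ 2 := by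
        have := xge t₁ le_rfl
        rw [div_le_iff₀ (by linarith)]
        linarith
      have h7 : 0 ≤ t₁ / t₁ ^ N := by positivity
      have h8 : Sc N γ * Real.exp (4 * γ / 5 + B + 1 - γ) =
          Real.exp (4 * γ / 5 + B + 1) * (1 / (2 * (N : ℝ))) / γ := by
        unfold Sc
        rw [Real.exp_sub]
        have := Real.exp_pos γ
        field_simp
      have h9 : Real.exp (4 * γ / 5 + B + 1) * (1 / (2 * (N : ℝ))) ≤
          Real.exp (4 * γ / 5 + B + 1) * δ := mul_le_mul_of_nonneg_left p.hδ (Real.exp_pos _).le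
      have h10 := p.hin
      calc _ ≤ Sc N γ * (Real.exp (4 * γ / 5 + B + 1 - γ) * 2) := by gcongr
        _ = Real.exp (4 * γ / 5 + B + 1) * (1 / (2 * (N : ℝ))) / γ * 2 := by rw [← h8]; ring
        _ ≤ 1 / 9 / 4 * 2 := by
          gcongr
          linarith
        _ ≤ 1 := by norm_num
    have h5 := norm_sub_norm_le (U (t * ζ) - Wf d N a γ (t * ζ)) (U (t₁ * ζ) - Wf d N a γ (t₁ * ζ))
    have h6 := norm_sub_le (U (t₁ * ζ)) (Wf d N a γ (t₁ * ζ))
    linarith [p.hS]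
  refine ⟨fun z hz => ?_, fun z hz => ?_, fun z hz1 hz hq => ?_⟩
  · obtain ⟨ζ, hζ, e⟩ := u_polar z
    rw [e]
    linarith [in1 ζ _ hζ (norm_nonneg z) hz, p.hS]
  · obtain ⟨ζ, hζ, e⟩ := u_polar z
    rcases le_total ‖z‖ t₁ with h | h
    · have h2 := in2 ζ _ hζ (norm_nonneg z) h
      rw [← e] at h2
      nlinarith [p.hS]
    have h2 := out ζ _ hζ h hz
    rw [← e] at h2
    have hlt : ‖z‖ < 1 := by linarith
    have hx := xge _ h
    have h3 : ‖Wf d N a γ z‖ ≤ Sc N γ * (1 + σ / 4) := by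
      rw [u_normW d N a hγ0]
      refine mul_le_mul_of_nonneg_left ?_ hS0.le
      have q1 := qlt z hlt
      have h4 := u_Po_ge q1
      rw [norm_pow] at h4 q1
      set x := ‖z‖ ^ N with hxd
      have h5 : (1 - x) / 2 ≤ Po (z ^ N) := by
        refine le_trans ?_ h4
        gcongr
        linarith
      have h6 : 4 * ((1 - x) / 2) ≤ (γ - B) * Po (z ^ N) :=
        mul_le_mul (by linarith [p.hγ]) h5 (by linarith) (by linarith [p.hγ])
      have h7 : ‖z‖ / x ≤ Real.exp (2 * (1 - x)) := by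
        rw [div_le_iff₀ (by linarith)]
        have := Real.add_one_le_exp (2 * (1 - x))
        nlinarith
      have h8 : Real.exp (σ / 8) ≤ 1 + σ / 4 := by
        have h9 := Real.add_one_le_exp (-(σ / 8))
        have h10 : Real.exp (σ / 8) * Real.exp (-(σ / 8)) = 1 := by
          rw [← Real.exp_add]; simp
        have h11 := Real.exp_pos (σ / 8)
        nlinarith
      calc _ ≤ Real.exp ((Phi d N a γ z).re - γ) * Real.exp (2 * (1 - x)) := by gcongr
        _ ≤ Real.exp (σ / 8) := by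
          rw [← Real.exp_add]
          exact Real.exp_le_exp.2 (by linarith [up z hlt])
        _ ≤ _ := h8
    have h4 := norm_sub_norm_le (U z) (Wf d N a γ z)
    linarith
  · obtain ⟨ζ, hζ, e⟩ := u_polar z
    have h3s : 3 * s / N ≤ 1 / (2 * (N : ℝ)) := by
      rw [div_le_div_iff₀ hN0 (by positivity)]
      nlinarith [p.hs']
    have h : t₁ ≤ ‖z‖ := by linarith
    have h2 := out ζ _ hζ h hz
    rw [← e] at h2
    have hlt : ‖z‖ < 1 := by linarith
    have hx := xge _ h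
    have h3 : Sc N γ * (1 - σ / 4) ≤ ‖Wf d N a γ z‖ := by
      rw [u_normW d N a hγ0]
      refine mul_le_mul_of_nonneg_left ?_ hS0.le
      have q1 := qlt z hlt
      have h4 : 1 - ‖z ^ N‖ ^ 2 ≤ 6 * s := by
        have h5 := u_bern (norm_nonneg z) N
        have h6 : (N : ℝ) * (1 - ‖z‖) ≤ N * (3 * s / N) :=
          mul_le_mul_of_nonneg_left (by linarith) hN0.le
        have e2 : (N : ℝ) * (3 * s / N) = 3 * s := by field_simp
        rw [norm_pow] at q1 ⊢
        nlinarith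
      have h5 : Po (z ^ N) ≤ 6 * s / φ ^ 2 := by
        unfold Po
        gcongr
      have h6 : 2 * γ * Po (z ^ N) ≤ σ / 8 := by
        refine le_trans (mul_le_mul_of_nonneg_left h5 (by positivity)) (le_trans ?_ p.htest)
        exact le_of_eq (by ring)
      have h7 : 1 ≤ ‖z‖ / ‖z‖ ^ N := by
        rw [le_div_iff₀ (by linarith), one_mul]
        exact pow_le_of_le_one (norm_nonneg z) hlt.le (by have := p.hN; omega)
      have h8 : 1 - σ / 4 ≤ Real.exp ((Phi d N a γ z).re - γ) := by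
        linarith [Real.add_one_le_exp ((Phi d N a γ z).re - γ), lo z hlt]
      calc 1 - σ / 4 ≤ Real.exp ((Phi d N a γ z).re - γ) * 1 := by linarith
        _ ≤ _ := by gcongr
    have h4 := norm_sub_norm_le (Wf d N a γ z) (U z)
    rw [norm_sub_rev] at h4
    linarith

end Pool.Agent.Work.MP_6ac3f6_an.Lo
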