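import Pool.Agent.Work.MP_6ac3f6_an.Lo.Defs

/-! The derivative of the approximate primitive. -/

set_option autoImplicit false

namespace Pool.Agent.Work.MP_6ac3f6_an.Lo

open Finset

lemma wd_sum (d N : ℕ) (b : ℕ → ℂ) (e : ℕ → ℕ) (B : ℝ) (hB : ∑ j ∈ range d, ‖b j‖ ≤ B)
    (he : ∀ j ∈ range d, e j ≤ N) (z : ℂ) (hz : ‖z‖ < 1) :
    ∃ P1 : ℂ, HasDerivAt (fun z => ∑ j ∈ range d, b j * z ^ e j) P1 z ∧ ‖z * P1‖ ≤ N * B ∧
      ‖∑ j ∈ range d, b j * z ^ e j‖ ≤ B := by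
  have h1 : ∀ k : ℕ, ‖z ^ k‖ ≤ 1 := fun k => by
    rw [norm_pow]
    exact pow_le_one₀ (norm_nonneg _) hz.le
  refine ⟨∑ j ∈ range d, b j * (e j * z ^ (e j - 1)),
    HasDerivAt.fun_sum fun j _ => (hasDerivAt_pow (e j) z).const_mul (b j), ?_, ?_⟩
  · rw [mul_sum]
    refine (norm_sum_le _ _).trans (le_trans (sum_le_sum fun j hj => ?_)
      ((mul_sum _ _ _).ge.trans (mul_le_mul_of_nonneg_left hB N.cast_nonneg)))
    rw [show z * (b j * (e j * z ^ (e j - 1))) = e j * b j * z ^ (e j - 1 + 1) by ring, norm_mul,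
      norm_mul, Complex.norm_natCast]
    have h2 : (e j : ℝ) ≤ N := by exact_mod_cast he j hj
    calc _ ≤ (N : ℝ) * ‖b j‖ * 1 := by gcongr; exact h1 _
      _ = _ := mul_one _
  · refine (norm_sum_le _ _).trans (le_trans (sum_le_sum fun j _ => ?_) hB)
    rw [norm_mul]
    exact mul_le_of_le_one_right (norm_nonneg _) (h1 _)

theorem wd : StmtW := by
  intro d N a γ B hB hd hN hγ z hz hq
  obtain ⟨P1, hP, p1, p2⟩ := wd_sum d N a (fun j => j) B hB
    (fun j hj => by have := mem_range.1 hj; omega) z hz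
  obtain ⟨Q1, hQ, q1, q2⟩ := wd_sum d N (fun j => (starRingEnd ℂ) (a j)) (fun j => N - j) B
    (by simpa using hB) (fun j _ => Nat.sub_le _ _) z hz
  change HasDerivAt (pol d a) P1 z at hP
  change HasDerivAt (rev d N a) Q1 z at hQ
  change ‖pol d a z‖ ≤ B at p2
  change ‖rev d N a z‖ ≤ B at q2
  have hB0 : 0 ≤ B := (norm_nonneg _).trans p2
  have hN0 : (0 : ℝ) < N := by exact_mod_cast hN
  have hq1 : ‖z ^ N‖ < 1 := by
    rw [norm_pow]
    exact pow_lt_one₀ (norm_nonneg _) hz (by omega)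
  rw [← norm_pow] at hq
  have hq0 : z ^ N ≠ 0 := fun h => by rw [h, norm_zero] at hq; norm_num at hq
  have h1q : 1 - z ^ N ≠ 0 := fun h => by
    rw [← sub_eq_zero.1 h, norm_one] at hq1
    exact lt_irrefl _ hq1
  have hγ' : (γ : ℂ) ≠ 0 := by exact_mod_cast hγ.ne'
  have hN' : (N : ℂ) ≠ 0 := by exact_mod_cast hN0.ne'
  have hD := hasDerivAt_pow N z
  have hzD : z * (N * z ^ (N - 1)) = N * z ^ N := by
    rw [mul_left_comm, ← pow_succ', Nat.sub_add_cancel hN]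
  generalize (N : ℂ) * z ^ (N - 1) = D at hD hzD
  have hΦ : HasDerivAt (Phi d N a γ) _ z :=
    ((hP.add hQ).sub (hD.const_mul (2 * (γ : ℂ)))).div (hD.const_sub 1) h1q
  have hW : HasDerivAt (Wf d N a γ) _ z :=
    ((hasDerivAt_neg' z).mul hΦ.cexp).div (hD.const_mul (2 * (γ : ℂ) * N))
      (mul_ne_zero (mul_ne_zero (mul_ne_zero two_ne_zero hγ') hN') hq0)
  refine ⟨hW.differentiableAt, ?_⟩
  have key : Complex.exp (Phi d N a γ z) / (1 - z ^ N) ^ 2 - deriv (Wf d N a γ) z =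
      Complex.exp (Phi d N a γ z) / (1 - z ^ N) ^ 2 *
        ((-((N - 1) * (1 - z ^ N) ^ 2 / z ^ N) + (z * P1 + z * Q1) * (1 - z ^ N) / z ^ N +
          N * (pol d a z + rev d N a z)) / (2 * γ * N)) := by
    rw [hW.deriv]
    simp only [Pi.add_apply, Pi.sub_apply, Pi.mul_apply]
    have hz0 : z ≠ 0 := fun h => hq0 (by rw [h, zero_pow (by omega)])
    obtain rfl : D = N * z ^ N / z := by rw [← hzD]; field_simp
    generalize z ^ N = q at hq0 h1q
    field_simp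
    ring
  rw [key, norm_mul, norm_div, Complex.norm_exp, norm_pow]
  refine mul_le_mul_of_nonneg_left ?_ (by positivity)
  have h2 : ‖1 - z ^ N‖ ≤ 2 := (norm_sub_le _ _).trans (by rw [norm_one]; linarith)
  have h3 : ‖((N : ℂ) - 1) * (1 - z ^ N) ^ 2 / z ^ N‖ ≤ N * 2 ^ 2 / (1 / 2) := by
    rw [norm_div, norm_mul, norm_pow]
    have : ‖(N : ℂ) - 1‖ ≤ N := by
      rw [← Nat.cast_pred hN, Complex.norm_natCast]
      exact_mod_cast Nat.sub_le _ _
    gcongr
  have h4 : ‖(z * P1 + z * Q1) * (1 - z ^ N) / z ^ N‖ ≤ (N * B + N * B) * 2 / (1 / 2) := by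
    rw [norm_div, norm_mul]
    have := (norm_add_le _ _).trans (add_le_add p1 q1)
    gcongr
  have h5 : ‖(N : ℂ) * (pol d a z + rev d N a z)‖ ≤ N * (B + B) := by
    rw [norm_mul, Complex.norm_natCast]
    have := (norm_add_le _ _).trans (add_le_add p2 q2)
    gcongr
  have h6 := (norm_add_le _ _).trans (add_le_add ((norm_add_le _ _).trans
    (add_le_add ((norm_neg _).le.trans h3) h4)) h5)
  rw [norm_div, norm_mul, norm_mul, Complex.norm_natCast, Complex.norm_real, Complex.norm_ofNat,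
    Real.norm_of_nonneg hγ.le, div_le_div_iff₀ (by positivity) hγ]
  calc _ ≤ _ := mul_le_mul_of_nonneg_right h6 hγ.le
    _ = _ := by ring

end Pool.Agent.Work.MP_6ac3f6_an.Lo
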