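import Pool.Agent.Work.MP_6ac3f6_an.Lo.Rad
import Pool.Agent.Work.MP_6ac3f6_an.Lo.Mean
import Pool.Agent.Work.MP_6ac3f6_an.Lo.PhiE
import Pool.Agent.Work.MP_6ac3f6_an.Lo.Wd
import Pool.Agent.Work.MP_6ac3f6_an.Lo.Num
import Pool.Agent.Work.MP_6ac3f6_an.Lo.U
import Pool.Agent.Work.MP_6ac3f6_an.Lo.Core
import Pool.Agent.Work.MP_6ac3f6_an.Lo.Stage
import Pool.Agent.Work.MP_6ac3f6_an.Lo.StageC
import Pool.Agent.Work.MP_6ac3f6_an.Lo.Good
import Pool.Agent.Work.MP_6ac3f6_an.Lo.Top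

/-!
A pole-free member of the class with growth index one.
-/

set_option autoImplicit false

namespace Pool.Agent.Work.MP_6ac3f6_an.Lo

theorem poleFree :
    ∃ f : ℂ → ℂ, DifferentiableOn ℂ f (Metric.ball 0 1) ∧ InClass f ∧ alpha f = 1 :=
  top (good (stage2c rad0 (stage rad0 pa mean num (core phi (uu rad0 radl phi wd)))))

end Pool.Agent.Work.MP_6ac3f6_an.Lo
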