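import Pool.Agent.Work.MP_6ac3f6_an.Lo.Defs

/-!
Growth along a radius, and approximation by polynomials on the closed unit disc.
-/

set_option autoImplicit false

namespace Pool.Agent.Work.MP_6ac3f6_an.Lo

open Metric Filter Topology Set

theorem rad_der {F F' : ℂ → ℂ} {ζ : ℂ} {t : ℝ} (c : ℂ) (h : HasDerivAt F (F' (t * ζ)) (t * ζ)) :
    HasDerivAt (fun s : ℝ => F (s * ζ) - c) (F' (t * ζ) * ζ) t := by
  have h1 : HasDerivAt (fun z : ℂ => z * ζ) ζ (t : ℂ) := by
    simpa using (hasDerivAt_id (t : ℂ)).mul_const ζ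
  have h2 : HasDerivAt (fun z : ℂ => F (z * ζ)) (F' (t * ζ) * ζ) (t : ℂ) :=
    HasDerivAt.comp (t : ℂ) (h := fun z : ℂ => z * ζ) h h1
  exact h2.comp_ofReal.sub_const c

theorem rad_fence {F F' : ℂ → ℂ} {ζ : ℂ} {t₁ t₂ : ℝ} (hζ : ‖ζ‖ = 1) (h12 : t₁ ≤ t₂)
    (hF : ∀ t ∈ Icc t₁ t₂, HasDerivAt F (F' (t * ζ)) (t * ζ)) {B B' : ℝ → ℝ} (hB0 : B t₁ = 0)
    (hB : ∀ t ∈ Icc t₁ t₂, HasDerivAt B (B' t) t) (hb : ∀ t ∈ Icc t₁ t₂, ‖F' (t * ζ)‖ ≤ B' t) :
    ‖F (t₂ * ζ) - F (t₁ * ζ)‖ ≤ B t₂ := by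
  have key := image_norm_le_of_norm_deriv_right_le_deriv_boundary'
    (f := fun s : ℝ => F (s * ζ) - F (t₁ * ζ)) (f' := fun s : ℝ => F' (s * ζ) * ζ)
    (a := t₁) (b := t₂) (B := B) (B' := B')
    (fun t ht => (rad_der _ (hF t ht)).continuousAt.continuousWithinAt)
    (fun t ht => (rad_der _ (hF t (Ico_subset_Icc_self ht))).hasDerivWithinAt)
    (by simp [hB0])
    (fun t ht => (hB t ht).continuousAt.continuousWithinAt)
    (fun t ht => (hB t (Ico_subset_Icc_self ht)).hasDerivWithinAt)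
    (fun t ht => by
      rw [norm_mul, hζ, mul_one]
      exact hb t (Ico_subset_Icc_self ht))
  exact key ⟨h12, le_rfl⟩

theorem rad0 : StmtRad0 := by
  intro F F' ζ t₁ t₂ C hζ h12 hF hb
  refine rad_fence hζ h12 hF (B := fun t => C * (t - t₁)) (B' := fun _ => C) (by simp)
    (fun t _ => ?_) hb
  simpa using ((hasDerivAt_id t).sub_const t₁).const_mul C

theorem radl : StmtRad := by
  intro F F' ζ t₁ t₂ K hζ h12 h2 hF hb
  have h1 : 0 < 1 - t₁ := by linarith
  have h3 : 0 < 1 - t₂ := by linarith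
  rw [Real.log_div h1.ne' h3.ne']
  refine rad_fence hζ h12 hF (B := fun t => K * (Real.log (1 - t₁) - Real.log (1 - t)))
    (B' := fun t => K / (1 - t)) (by simp) (fun t ht => ?_) hb
  have h4 : 0 < 1 - t := by linarith [ht.2]
  have h5 : HasDerivAt (fun s : ℝ => 1 - s) (-1) t := by
    simpa using (hasDerivAt_id t).const_sub 1
  have h6 := ((h5.log h4.ne').const_sub (Real.log (1 - t₁))).const_mul K
  refine h6.congr_deriv ?_
  rw [neg_div, neg_neg, mul_one_div]

theorem pa : StmtPA := by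
  intro g R η hR hη hg
  obtain ⟨R₀, h1, h2⟩ := exists_between hR
  obtain ⟨R₁, h3, h4⟩ := exists_between h1
  lift R₀ to NNReal using (by linarith)
  lift R₁ to NNReal using (by linarith)
  have hp := (hg.mono (closedBall_subset_ball h2)).hasFPowerSeriesOnBall
    (show 0 < R₀ from by exact_mod_cast (by linarith : (0 : ℝ) < R₀))
  have hu := hp.tendstoUniformlyOn (r' := R₁) (by exact_mod_cast h4)
  rw [Metric.tendstoUniformlyOn_iff] at hu
  obtain ⟨d, hd⟩ := (hu η hη).exists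
  refine ⟨d, fun j => (cauchyPowerSeries g 0 R₀).coeff j, fun z hz => ?_⟩
  have h5 := hd z (by rw [mem_ball_zero_iff]; linarith)
  rw [dist_eq_norm, zero_add] at h5
  have h6 : pol d (fun j => (cauchyPowerSeries g 0 R₀).coeff j) z =
      (cauchyPowerSeries g 0 R₀).partialSum d z := by
    unfold pol FormalMultilinearSeries.partialSum
    refine Finset.sum_congr rfl fun j _ => ?_
    rw [FormalMultilinearSeries.apply_eq_pow_smul_coeff, smul_eq_mul, mul_comm]
  rw [h6]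
  exact h5.le

end Pool.Agent.Work.MP_6ac3f6_an.Lo
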