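import Pool.Agent.Work.MP_6ac3f6_an.Lo.Fin

/-!
The function belongs to the class, and its growth index is exactly one.
-/

set_option autoImplicit false

namespace Pool.Agent.Work.MP_6ac3f6_an.Lo

open Metric Filter Topology Set

lemma top_cauchy {h y : ℂ → ℂ} {M : ℝ}
    (hy : ∀ z ∈ ball (0 : ℂ) 1, HasDerivAt y (Complex.exp (h z)) z)
    (hM : ∀ z ∈ ball (0 : ℂ) 1, ‖y z‖ ≤ M) {z : ℂ} (hz : z ∈ ball (0 : ℂ) 1) :
    (h z).re ≤ Real.log (2 * M + 2) - Real.log (1 - ‖z‖) := by
  have M0 : 0 ≤ M := (norm_nonneg _).trans (hM z hz)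
  have hz1 : 0 < 1 - ‖z‖ := by linarith [mem_ball_zero_iff.1 hz]
  have hsub : closedBall z ((1 - ‖z‖) / 2) ⊆ ball (0 : ℂ) 1 := fun w hw => by
    rw [mem_closedBall, dist_eq_norm] at hw
    rw [mem_ball_zero_iff]
    linarith [norm_sub_norm_le w z]
  have hd : DifferentiableOn ℂ y (ball 0 1) := fun w hw =>
    (hy w hw).differentiableAt.differentiableWithinAt
  have h1 := Complex.norm_deriv_le_of_forall_mem_sphere_norm_le (c := z) (R := (1 - ‖z‖) / 2)
    (C := M) (by linarith)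
    ((hd.mono (closure_ball_subset_closedBall.trans hsub)).diffContOnCl)
    (fun w hw => hM w (hsub (sphere_subset_closedBall hw)))
  rw [(hy z hz).deriv, Complex.norm_exp] at h1
  rw [← Real.log_div (by linarith) hz1.ne', Real.le_log_iff_exp_le (by positivity)]
  refine h1.trans ?_
  rw [div_le_div_iff₀ (by linarith) hz1]
  nlinarith

lemma top_alpha {f h : ℂ → ℂ} (hf : DifferentiableOn ℂ f (ball 0 1))
    (hf0 : ∀ z ∈ ball (0 : ℂ) 1, f z ≠ 0) (hh : DifferentiableOn ℂ h (ball 0 1)) (h0 : h 0 = 0)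
    (C : ℝ) (hl : ∀ z ∈ ball (0 : ℂ) 1,
      max 0 (Real.log ‖f z‖) ≤ C - Real.log (1 - ‖z‖) - (h z).re) : alpha f ≤ 1 := by
  have key : ∀ r : ℝ, 0 < r → r < 1 → prox f r + counting f r ≤ C - Real.log (1 - r) := by
    intro r hr0 hr
    have hs : sphere (0 : ℂ) |r| ⊆ ball 0 1 := by
      rw [abs_of_pos hr0]; exact sphere_subset_ball hr
    have c1 : ContinuousOn (fun z => (h z).re) (sphere (0 : ℂ) |r|) :=
      Complex.continuous_re.comp_continuousOn (hh.continuousOn.mono hs)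
    have c3 : ContinuousOn (fun z => max 0 (Real.log ‖f z‖)) (sphere (0 : ℂ) |r|) :=
      continuousOn_const.sup ((hf.continuousOn.mono hs).norm.log
        (fun z hz => norm_ne_zero_iff.2 (hf0 z (hs hz))))
    have h1 : Real.circleAverage (fun z => max 0 (Real.log ‖f z‖) + (h z).re) 0 r ≤
        C - Real.log (1 - r) := by
      refine Real.circleAverage_mono_on_of_le_circle (c3.add c1).circleIntegrable' (fun z hz => ?_)
      have a1 := hl z (hs hz)
      rw [mem_sphere_zero_iff_norm, abs_of_pos hr0] at hz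
      rw [hz] at a1
      linarith
    rw [Real.circleAverage_fun_add c3.circleIntegrable' c1.circleIntegrable',
      fin_mean hh h0 hr0 hr] at h1
    rw [fin_counting hf hr0 hr, fin_prox]
    exact h1
  refine le_of_forall_gt (fun c hc => ?_)
  obtain ⟨x, h1, h2⟩ := EReal.lt_iff_exists_real_btwn.1 hc
  have h3 : 1 < x := by exact_mod_cast h1
  refine lt_of_le_of_lt (limsup_le_of_le (by isBoundedDefault) ?_) h2
  have hl1 : max 0 (1 - Real.exp (-(|C| / (x - 1)))) < 1 :=
    max_lt one_pos (by linarith [Real.exp_pos (-(|C| / (x - 1)))])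
  filter_upwards [Ioo_mem_nhdsLT hl1] with r hr
  have r0 : 0 < r := (le_max_left _ _).trans_lt hr.1
  have r1 : 1 - Real.exp (-(|C| / (x - 1))) < r := (le_max_right _ _).trans_lt hr.1
  have b1 : Real.log (1 - r) ≤ -(|C| / (x - 1)) := by
    rw [← Real.log_exp (-(|C| / (x - 1)))]
    exact Real.log_le_log (by linarith [hr.2]) (by linarith)
  have b2 : 0 < -Real.log (1 - r) := by
    linarith [Real.log_neg (show 0 < 1 - r by linarith [hr.2]) (by linarith)]
  have b3 : |C| ≤ (x - 1) * -Real.log (1 - r) := by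
    have : |C| / (x - 1) ≤ -Real.log (1 - r) := by linarith
    rw [div_le_iff₀ (by linarith)] at this
    linarith
  rw [EReal.coe_le_coe_iff, div_le_iff₀ b2]
  linarith [key r r0 hr.2, le_abs_self C]

theorem top (h : StmtGood) :
    ∃ f : ℂ → ℂ, DifferentiableOn ℂ f (ball 0 1) ∧ InClass f ∧ alpha f = 1 := by
  obtain ⟨h, y, M, hh, hd, h0, hy, hM, hg⟩ := h
  have hn : ∀ z ∈ ball (0 : ℂ) 1, 1 ≤ ‖y z + ((M + 1 : ℝ) : ℂ)‖ := fun z hz => by
    have a1 := hM z hz
    have a2 : ‖((M + 1 : ℝ) : ℂ)‖ ≤ ‖y z + ((M + 1 : ℝ) : ℂ)‖ + ‖y z‖ := by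
      simpa using norm_sub_le (y z + ((M + 1 : ℝ) : ℂ)) (y z)
    have a3 : M + 1 ≤ ‖((M + 1 : ℝ) : ℂ)‖ := by
      rw [Complex.norm_real]; exact le_abs_self _
    linarith
  have hne : ∀ z ∈ ball (0 : ℂ) 1, y z + ((M + 1 : ℝ) : ℂ) ≠ 0 := fun z hz h' => by
    have := hn z hz
    rw [h', norm_zero] at this
    linarith
  have hD : ∀ z ∈ ball (0 : ℂ) 1, HasDerivAt
      (fun w => (y w + ((M + 1 : ℝ) : ℂ)) * Complex.exp (-h w))
      (Complex.exp (h z) * Complex.exp (-h z) +
        (y z + ((M + 1 : ℝ) : ℂ)) * (Complex.exp (-h z) * -deriv h z)) z := fun z hz =>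
    ((hy z hz).add_const _).mul
      ((hh.differentiableAt (isOpen_ball.mem_nhds hz)).hasDerivAt.neg.cexp)
  have hf : DifferentiableOn ℂ (fun w => (y w + ((M + 1 : ℝ) : ℂ)) * Complex.exp (-h w))
      (ball 0 1) := fun z hz => (hD z hz).differentiableAt.differentiableWithinAt
  have hf0 : ∀ z ∈ ball (0 : ℂ) 1, (y z + ((M + 1 : ℝ) : ℂ)) * Complex.exp (-h z) ≠ 0 :=
    fun z hz => mul_ne_zero (hne z hz) (Complex.exp_ne_zero _)
  have hup : alpha (fun w => (y w + ((M + 1 : ℝ) : ℂ)) * Complex.exp (-h w)) ≤ 1 := by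
    refine top_alpha hf hf0 hh h0 (Real.log (2 * M + 1) + Real.log (2 * M + 2))
      (fun z hz => ?_)
    have M0 : 0 ≤ M := (norm_nonneg _).trans (hM z hz)
    have hz1 : 0 < 1 - ‖z‖ := by linarith [mem_ball_zero_iff.1 hz]
    have a1 := top_cauchy hy hM hz
    have a2 : Real.log ‖y z + ((M + 1 : ℝ) : ℂ)‖ ≤ Real.log (2 * M + 1) := by
      refine Real.log_le_log (by linarith [hn z hz]) ((norm_add_le _ _).trans ?_)
      rw [Complex.norm_real, Real.norm_of_nonneg (by linarith)]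
      linarith [hM z hz]
    have a3 : 0 ≤ Real.log (2 * M + 1) := Real.log_nonneg (by linarith)
    have a4 : 0 ≤ Real.log (2 * M + 2) := Real.log_nonneg (by linarith)
    have a5 : Real.log (1 - ‖z‖) ≤ 0 := Real.log_nonpos hz1.le (by linarith [norm_nonneg z])
    rw [norm_mul, Real.log_mul (norm_ne_zero_iff.2 (hne z hz))
      (norm_ne_zero_iff.2 (Complex.exp_ne_zero _)), Complex.norm_exp, Real.log_exp,
      Complex.neg_re]
    exact max_le (by linarith) (by linarith)
  have han := hf.analyticOnNhd isOpen_ball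
  refine ⟨_, hf, ⟨han.meromorphicOn, hup.trans_lt (EReal.coe_lt_top 1),
    fun z hz _ => ⟨han z hz, hf0 z hz, ?_⟩⟩, le_antisymm hup ?_⟩
  · rw [(hD z hz).deriv, ← Complex.exp_add, add_neg_cancel, Complex.exp_zero, Ne, add_eq_left]
    exact mul_ne_zero (hne z hz) (mul_ne_zero (Complex.exp_ne_zero _) (neg_ne_zero.2 (hd z hz)))
  · have hl : ∀ z ∈ ball (0 : ℂ) 1, -(h z).re ≤
        Real.log ‖(y z + ((M + 1 : ℝ) : ℂ)) * Complex.exp (-h z)‖ := fun z hz => by
      rw [norm_mul, Real.log_mul (norm_ne_zero_iff.2 (hne z hz))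
        (norm_ne_zero_iff.2 (Complex.exp_ne_zero _)), Complex.norm_exp, Real.log_exp,
        Complex.neg_re]
      linarith [Real.log_nonneg (hn z hz)]
    refine le_of_forall_lt (fun c hc => ?_)
    obtain ⟨x, h1, h2⟩ := EReal.lt_iff_exists_real_btwn.1 hc
    have h3 : x < 1 := by exact_mod_cast h2
    refine h1.trans_le (le_limsup_of_frequently_le ?_)
    rw [Filter.frequently_iff]
    intro U hU
    obtain ⟨l, hl1, hlU⟩ := (mem_nhdsLT_iff_exists_Ioo_subset).1 hU
    have hl2 : l < 1 := hl1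
    set η : ℝ := (1 - x) / 2 with hη
    have hη0 : 0 < η := by rw [hη]; linarith
    obtain ⟨r, hr0, hr1, hr2, hr3⟩ := hg (min (min ((1 - l) / 2) η) (Real.exp (-(2 / η))))
      (lt_min (lt_min (by linarith) hη0) (Real.exp_pos _))
    have e1 := (min_le_left _ (Real.exp (-(2 / η)))).trans (min_le_left ((1 - l) / 2) η)
    have e2 := (min_le_left _ (Real.exp (-(2 / η)))).trans (min_le_right ((1 - l) / 2) η)
    have e3 := min_le_right (min ((1 - l) / 2) η) (Real.exp (-(2 / η)))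
    generalize min (min ((1 - l) / 2) η) (Real.exp (-(2 / η))) = ε at hr1 hr3 e1 e2 e3
    refine ⟨r, hlU ⟨by linarith, hr2⟩, ?_⟩
    have b1 : Real.log (1 - r) ≤ -(2 / η) := by
      rw [← Real.log_exp (-(2 / η))]
      exact Real.log_le_log (by linarith) (by linarith)
    have b0 : 0 < 2 / η := by positivity
    have b2 : 0 < -Real.log (1 - r) := by linarith
    have b3 : 2 ≤ η * -Real.log (1 - r) := by
      have : 2 / η ≤ -Real.log (1 - r) := by linarith
      rw [div_le_iff₀ hη0] at this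
      linarith
    have b4 := fin_lower hf hf0 hh h0 hl hr0 hr2
    have b5 := mul_le_mul_of_nonneg_right e2 b2.le
    rw [EReal.coe_le_coe_iff, le_div_iff₀ b2]
    have b6 : x = 1 - 2 * η := by rw [hη]; ring
    rw [b6]
    linarith

end Pool.Agent.Work.MP_6ac3f6_an.Lo
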